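import Mathlib

/-!
# Local structure of claw-free cubic graphs
-/

namespace Pool.Agent.Q271.CF

variable {V : Type*} {G : SimpleGraph V}

/-- every vertex has exactly three neighbours -/
def Cub (G : SimpleGraph V) : Prop :=
  ∀ v, ∃ x y z, x ≠ y ∧ x ≠ z ∧ y ≠ z ∧ ∀ u, G.Adj v u ↔ u = x ∨ u = y ∨ u = z

/-- no induced `K_{1,3}` -/
def CFree (G : SimpleGraph V) : Prop :=
  ∀ v x y z, G.Adj v x → G.Adj v y → G.Adj v z → x ≠ y → x ≠ z → y ≠ z →
    G.Adj x y ∨ G.Adj x z ∨ G.Adj y z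

/-- an edge that lies in a triangle -/
def Tr (G : SimpleGraph V) (u v : V) : Prop := G.Adj u v ∧ ∃ w, G.Adj u w ∧ G.Adj v w

/-- all edges at the vertex lie in triangles -/
def Mid (G : SimpleGraph V) (v : V) : Prop := ∀ u, G.Adj v u → Tr G v u

theorem Tr.symm {u v : V} (h : Tr G u v) : Tr G v u :=
  ⟨h.1.symm, h.2.imp fun _ hw => ⟨hw.2, hw.1⟩⟩

theorem nb3 (hN : Cub G) {c v a d : V} (h1 : v ≠ a) (h2 : v ≠ d) (h3 : a ≠ d)
    (hv : G.Adj c v) (ha : G.Adj c a) (hd : G.Adj c d) (u : V) :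
    G.Adj c u ↔ u = v ∨ u = a ∨ u = d := by
  obtain ⟨x, y, z, hxy, hxz, hyz, h⟩ := hN c
  rw [h] at hv ha hd
  rw [h]
  rcases hv with rfl | rfl | rfl <;> rcases ha with rfl | rfl | rfl <;>
    rcases hd with rfl | rfl | rfl <;> simp_all <;> tauto

theorem nonmid (hN : Cub G) (hF : CFree G) {v : V} (h : ¬ Mid G v) :
    ∃ o x y, x ≠ y ∧ x ≠ o ∧ y ≠ o ∧ G.Adj x y ∧ ¬ G.Adj x o ∧ ¬ G.Adj y o ∧ ¬ Tr G v o ∧
      ∀ u, G.Adj v u ↔ u = x ∨ u = y ∨ u = o := by
  unfold Mid at h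
  push Not at h
  obtain ⟨o, ho, hto⟩ := h
  obtain ⟨x, y, hxy, hxo, hyo, hx, hy⟩ : ∃ x y, x ≠ y ∧ x ≠ o ∧ y ≠ o ∧ G.Adj v x ∧ G.Adj v y := by
    obtain ⟨p, q, r, hpq, hpr, hqr, h⟩ := hN v
    have hp : G.Adj v p := (h p).2 (Or.inl rfl)
    have hq : G.Adj v q := (h q).2 (Or.inr (Or.inl rfl))
    have hr : G.Adj v r := (h r).2 (Or.inr (Or.inr rfl))
    rcases (h o).1 ho with rfl | rfl | rfl
    · exact ⟨q, r, hqr, hpq.symm, hpr.symm, hq, hr⟩
    · exact ⟨p, r, hpr, hpq, hqr.symm, hp, hr⟩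
    · exact ⟨p, q, hpq, hpr, hqr, hp, hq⟩
  have h1 : ¬ G.Adj x o := fun h1 => hto ⟨ho, x, hx, h1.symm⟩
  have h2 : ¬ G.Adj y o := fun h1 => hto ⟨ho, y, hy, h1.symm⟩
  refine ⟨o, x, y, hxy, hxo, hyo, ?_, h1, h2, hto, nb3 hN hxy hxo hyo hx hy ho⟩
  rcases hF v x y o hx hy ho hxy hxo hyo with h | h | h
  · exact h
  · exact absurd h h1
  · exact absurd h h2

open Classical in
/-- the neighbour along the edge that is in no triangle -/
noncomputable def out (G : SimpleGraph V) (v : V) : V :=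
  if h : ∃ u, G.Adj v u ∧ ¬ Tr G v u then h.choose else v

theorem out_spec {v : V} (h : ¬ Mid G v) : G.Adj v (out G v) ∧ ¬ Tr G v (out G v) := by
  have h' : ∃ u, G.Adj v u ∧ ¬ Tr G v u := by
    unfold Mid at h
    push Not at h
    exact h
  rw [out, dif_pos h']
  exact h'.choose_spec

theorem nm (hN : Cub G) (hF : CFree G) {v : V} (h : ¬ Mid G v) :
    ∃ x y, x ≠ y ∧ x ≠ out G v ∧ y ≠ out G v ∧ G.Adj x y ∧ ¬ G.Adj x (out G v) ∧
      ¬ G.Adj y (out G v) ∧ ∀ u, G.Adj v u ↔ u = x ∨ u = y ∨ u = out G v := by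
  obtain ⟨o, x, y, hxy, hxo, hyo, ha, h1, h2, h3, h4⟩ := nonmid hN hF h
  have hx : G.Adj v x := (h4 x).2 (Or.inl rfl)
  have hy : G.Adj v y := (h4 y).2 (Or.inr (Or.inl rfl))
  obtain ⟨s1, s2⟩ := out_spec h
  have : out G v = o := by
    rcases (h4 _).1 s1 with h5 | h5 | h5
    · exact absurd ⟨s1, y, hy, by rw [h5]; exact ha⟩ s2
    · exact absurd ⟨s1, x, hx, by rw [h5]; exact ha.symm⟩ s2
    · exact h5
  rw [this]
  exact ⟨x, y, hxy, hxo, hyo, ha, h1, h2, h4⟩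

theorem out_uniq (hN : Cub G) (hF : CFree G) {v u : V} (h1 : G.Adj v u) (h2 : ¬ Tr G v u) :
    u = out G v := by
  have h : ¬ Mid G v := fun h => h2 (h u h1)
  obtain ⟨x, y, hxy, hxo, hyo, ha, -, -, h4⟩ := nm hN hF h
  have hx : G.Adj v x := (h4 x).2 (Or.inl rfl)
  have hy : G.Adj v y := (h4 y).2 (Or.inr (Or.inl rfl))
  rcases (h4 _).1 h1 with h5 | h5 | h5
  · exact absurd ⟨h1, y, hy, by rw [h5]; exact ha⟩ h2
  · exact absurd ⟨h1, x, hx, by rw [h5]; exact ha.symm⟩ h2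
  · exact h5

theorem out_nonmid {v : V} (h : ¬ Mid G v) : ¬ Mid G (out G v) := by
  obtain ⟨s1, s2⟩ := out_spec h
  exact fun h' => s2 (h' v s1.symm).symm

theorem out_out (hN : Cub G) (hF : CFree G) {v : V} (h : ¬ Mid G v) : out G (out G v) = v := by
  obtain ⟨s1, s2⟩ := out_spec h
  exact (out_uniq hN hF s1.symm (fun h' => s2 h'.symm)).symm

theorem mid_struct (hN : Cub G) {v : V} (h : Mid G v) :
    ∃ c a d, c ≠ a ∧ c ≠ d ∧ a ≠ d ∧ (∀ u, G.Adj v u ↔ u = c ∨ u = a ∨ u = d) ∧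
      (∀ u, G.Adj c u ↔ u = v ∨ u = a ∨ u = d) := by
  obtain ⟨p, q, r, hpq, hpr, hqr, hn⟩ := hN v
  have hp : G.Adj v p := (hn p).2 (Or.inl rfl)
  have hq : G.Adj v q := (hn q).2 (Or.inr (Or.inl rfl))
  have hr : G.Adj v r := (hn r).2 (Or.inr (Or.inr rfl))
  have key : ∀ c a d, c ≠ a → c ≠ d → a ≠ d → G.Adj v c → G.Adj v a → G.Adj v d →
      G.Adj c a → G.Adj c d → ∃ c a d, c ≠ a ∧ c ≠ d ∧ a ≠ d ∧
      (∀ u, G.Adj v u ↔ u = c ∨ u = a ∨ u = d) ∧ (∀ u, G.Adj c u ↔ u = v ∨ u = a ∨ u = d) := by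
    intro c a d h1 h2 h3 hc ha hd hca hcd
    exact ⟨c, a, d, h1, h2, h3, nb3 hN h1 h2 h3 hc ha hd,
      nb3 hN ha.ne hd.ne h3 hc.symm hca hcd⟩
  have tp : G.Adj p q ∨ G.Adj p r := by
    obtain ⟨-, w, hw1, hw2⟩ := h p hp
    rcases (hn w).1 hw1 with rfl | rfl | rfl
    · exact absurd hw2 (G.irrefl)
    · exact Or.inl hw2
    · exact Or.inr hw2
  have tq : G.Adj p q ∨ G.Adj q r := by
    obtain ⟨-, w, hw1, hw2⟩ := h q hq
    rcases (hn w).1 hw1 with rfl | rfl | rfl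
    · exact Or.inl hw2.symm
    · exact absurd hw2 (G.irrefl)
    · exact Or.inr hw2
  have tr : G.Adj p r ∨ G.Adj q r := by
    obtain ⟨-, w, hw1, hw2⟩ := h r hr
    rcases (hn w).1 hw1 with rfl | rfl | rfl
    · exact Or.inl hw2.symm
    · exact Or.inr hw2.symm
    · exact absurd hw2 (G.irrefl)
  rcases tp with h1 | h1
  · rcases tr with h2 | h2
    · exact key p q r hpq hpr hqr hp hq hr h1 h2
    · exact key q p r hpq.symm hqr hpr hq hp hr h1.symm h2
  · rcases tq with h2 | h2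
    · exact key p q r hpq hpr hqr hp hq hr h2 h1
    · exact key r p q hpr.symm hqr.symm hpq hr hp hq h1.symm h2.symm

/-- closed twins -/
def Tw (G : SimpleGraph V) (u v : V) : Prop := ∀ w, (w = u ∨ G.Adj u w) ↔ (w = v ∨ G.Adj v w)

/-- the setoid of closed twins -/
def twSetoid (G : SimpleGraph V) : Setoid V where
  r := Tw G
  iseqv := ⟨fun _ _ => Iff.rfl, fun h w => (h w).symm, fun h1 h2 w => (h1 w).trans (h2 w)⟩

/-- a representative of the twin class -/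
noncomputable def rep (G : SimpleGraph V) (v : V) : V :=
  (Quotient.mk (twSetoid G) v).out

theorem tw_rep (v : V) : Tw G v (rep G v) := by
  have h := Quotient.mk_out (s := twSetoid G) v
  intro w
  exact (h w).symm

theorem rep_eq {u v : V} (h : Tw G u v) : rep G u = rep G v := by
  have : Quotient.mk (twSetoid G) u = Quotient.mk (twSetoid G) v := Quotient.sound h
  rw [rep, rep, this]

theorem Tw.adj {u v : V} (h : Tw G u v) (hne : u ≠ v) : G.Adj u v := by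
  rcases (h v).2 (Or.inl rfl) with h1 | h1
  · exact absurd h1.symm hne
  · exact h1

theorem Tw.mid (hN : Cub G) {u v : V} (h : Tw G u v) (hu : Mid G u) : Mid G v := by
  by_cases hne : u = v
  · exact hne ▸ hu
  have hadj := h.adj hne
  intro w hw
  by_cases hwu : w = u
  · subst hwu
    refine ⟨hw, ?_⟩
    obtain ⟨-, x, hx1, hx2⟩ := hu v hadj
    exact ⟨x, hx2, hx1⟩
  · have h1 : G.Adj u w := by
      rcases (h w).2 (Or.inr hw) with h2 | h2
      · exact absurd h2 hwu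
      · exact h2
    exact ⟨hw, u, hadj.symm, h1.symm⟩

/-- one vertex of every twin class in the middle of a diamond -/
def Am (G : SimpleGraph V) : Set V := {v | Mid G v ∧ rep G v = v}

theorem rep_mem (hN : Cub G) {v : V} (h : Mid G v) : rep G v ∈ Am G :=
  ⟨(tw_rep v).mid hN h, (rep_eq (tw_rep v)).symm⟩

theorem mid_nonA (hN : Cub G) {v : V} (h : Mid G v) (hv : v ∉ Am G) :
    ∃ b a d, b ∈ Am G ∧ b ≠ a ∧ b ≠ d ∧ a ≠ d ∧ (∀ u, G.Adj v u ↔ u = b ∨ u = a ∨ u = d) ∧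
      (∀ u, G.Adj b u ↔ u = v ∨ u = a ∨ u = d) := by
  have hb := rep_mem hN h
  have hne : v ≠ rep G v := fun h' => hv ⟨h, h'.symm⟩
  have hadj := (tw_rep (G := G) v).adj hne
  obtain ⟨x, y, z, hxy, hxz, hyz, hn⟩ := hN v
  obtain ⟨a, d, had, hab, hdb, ha, hd⟩ : ∃ a d, a ≠ d ∧ a ≠ rep G v ∧ d ≠ rep G v ∧
      G.Adj v a ∧ G.Adj v d := by
    have hp : G.Adj v x := (hn x).2 (Or.inl rfl)
    have hq : G.Adj v y := (hn y).2 (Or.inr (Or.inl rfl))
    have hr : G.Adj v z := (hn z).2 (Or.inr (Or.inr rfl))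
    rcases (hn _).1 hadj with h1 | h1 | h1
    · exact ⟨y, z, hyz, fun h => hxy (by rw [← h1, ← h]), fun h => hxz (by rw [← h1, ← h]), hq, hr⟩
    · exact ⟨x, z, hxz, fun h => hxy (by rw [← h1, h]), fun h => hyz (by rw [← h1, ← h]), hp, hr⟩
    · exact ⟨x, y, hxy, fun h => hxz (by rw [← h1, h]), fun h => hyz (by rw [← h1, h]), hp, hq⟩
  have hba : G.Adj (rep G v) a := by
    rcases (tw_rep (G := G) v a).1 (Or.inr ha) with h1 | h1
    · exact absurd h1 hab
    · exact h1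
  have hbd : G.Adj (rep G v) d := by
    rcases (tw_rep (G := G) v d).1 (Or.inr hd) with h1 | h1
    · exact absurd h1 hdb
    · exact h1
  exact ⟨rep G v, a, d, hb, hab.symm, hdb.symm, had, nb3 hN hab.symm hdb.symm had hadj ha hd,
    nb3 hN ha.ne hd.ne had hadj.symm hba hbd⟩

theorem end_struct (hN : Cub G) (hF : CFree G) {v u : V} (hv : ¬ Mid G v) (hvu : G.Adj v u)
    (hu : Mid G u) : ∃ b c, b ∈ Am G ∧ Mid G c ∧ b ≠ c ∧ b ≠ out G v ∧ c ≠ out G v ∧ G.Adj b c ∧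
      ∀ w, G.Adj v w ↔ w = b ∨ w = c ∨ w = out G v := by
  obtain ⟨x, y, hxy, hxo, hyo, ha, h1, h2, h4⟩ := nm hN hF hv
  -- a triangle mate that is `Mid` forces the other to be its twin
  have key : ∀ x y, x ≠ y → x ≠ out G v → y ≠ out G v → G.Adj x y → ¬ G.Adj x (out G v) →
      (∀ w, G.Adj v w ↔ w = x ∨ w = y ∨ w = out G v) → Mid G x → Tw G x y := by
    intro x y hxy hxo hyo ha h1 h4 hx
    obtain ⟨c, p, q, hcp, hcq, hpq, hnx, hnc⟩ := mid_struct hN hx
    have hvx : G.Adj x v := ((h4 x).2 (Or.inl rfl)).symm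
    have htw : Tw G x c := by
      intro w
      rw [hnx, hnc]
      tauto
    have hcv : v ≠ c := fun h => hv (h ▸ htw.mid hN hx)
    have hvc : G.Adj c v := by
      rw [hnc]
      rcases (hnx v).1 hvx with h | h | h
      · exact absurd h hcv
      · exact Or.inr (Or.inl h)
      · exact Or.inr (Or.inr h)
    have hcx : G.Adj x c := (hnx c).2 (Or.inl rfl)
    rcases (h4 c).1 hvc.symm with h | h | h
    · exact absurd h hcx.ne'
    · rw [← h]; exact htw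
    · exact absurd (h ▸ hcx) h1
  have hmid : Mid G x ∧ Mid G y ∧ Tw G x y := by
    rcases (h4 u).1 hvu with h | h | h
    · subst h
      have := key u y hxy hxo hyo ha h1 h4 hu
      exact ⟨hu, this.mid hN hu, this⟩
    · subst h
      have := key u x hxy.symm hyo hxo ha.symm h2 (fun w => by rw [h4]; tauto) hu
      exact ⟨this.mid hN hu, hu, fun w => (this w).symm⟩
    · exact absurd (h ▸ hu) (out_nonmid hv)
  obtain ⟨mx, my, htw⟩ := hmid
  -- the representative is `x` or `y`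
  have hrx : rep G x = x ∨ rep G x = y := by
    by_contra hcon
    push Not at hcon
    have t1 := tw_rep (G := G) x
    have hxr : G.Adj x (rep G x) := t1.adj (fun h => hcon.1 h.symm)
    -- `v` is adjacent to the representative
    have hvr : rep G x = v ∨ G.Adj v (rep G x) := by
      have h5 : G.Adj x v := ((h4 x).2 (Or.inl rfl)).symm
      rcases (t1 v).1 (Or.inr h5) with h | h
      · exact Or.inl h.symm
      · exact Or.inr h.symm
    rcases hvr with h | h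
    · exact hv (h ▸ (rep_mem hN mx).1)
    · rcases (h4 _).1 h with h' | h' | h'
      · exact hcon.1 h'
      · exact hcon.2 h'
      · exact h1 (h' ▸ hxr)
  rcases hrx with h | h
  · exact ⟨x, y, ⟨mx, h⟩, my, hxy, hxo, hyo, ha, h4⟩
  · refine ⟨y, x, ⟨my, ?_⟩, mx, hxy.symm, hyo, hxo, ha.symm, fun w => by rw [h4]; tauto⟩
    rw [← rep_eq htw, h]

end Pool.Agent.Q271.CF
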