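import Pool.Agent.Q271.CF.Pure

/-!
# The 2-core of the remaining graph and the switching lemma
-/

namespace Pool.Agent.Q271.CF

variable {V : Type*} {G : SimpleGraph V}

/-- `S` avoids `D` and each of its vertices has two neighbours in `S`. -/
def Good (G : SimpleGraph V) (D : Set V) (S : Finset V) : Prop :=
  (∀ v ∈ S, v ∉ D) ∧ ∀ v ∈ S, ∃ x y, x ≠ y ∧ x ∈ S ∧ y ∈ S ∧ G.Adj v x ∧ G.Adj v y

theorem Good.two {D : Set V} {S : Finset V} (g : Good G D S) {v a b c : V} (hv : v ∈ S)
    (hn : ∀ u, G.Adj v u ↔ u = a ∨ u = b ∨ u = c) (ha : a ∉ S) : b ∈ S ∧ c ∈ S := by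
  obtain ⟨x, y, hxy, hx, hy, hvx, hvy⟩ := g.2 v hv
  rw [hn] at hvx hvy
  rcases hvx with rfl | rfl | rfl
  · exact absurd hx ha
  · rcases hvy with rfl | rfl | rfl
    · exact absurd hy ha
    · exact absurd rfl hxy
    · exact ⟨hx, hy⟩
  · rcases hvy with rfl | rfl | rfl
    · exact absurd hy ha
    · exact ⟨hy, hx⟩
    · exact absurd rfl hxy

variable [Fintype V] [DecidableEq V]

open Classical in
/-- the largest good set -/
noncomputable def core (G : SimpleGraph V) (D : Set V) : Finset V :=
  Finset.univ.filter (fun v => ∃ S : Finset V, v ∈ S ∧ Good G D S)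

theorem mem_core {D : Set V} {v : V} : v ∈ core G D ↔ ∃ S : Finset V, v ∈ S ∧ Good G D S := by
  simp [core]

theorem Good.subset_core {D : Set V} {S : Finset V} (g : Good G D S) : S ⊆ core G D :=
  fun _ hv => mem_core.2 ⟨S, hv, g⟩

theorem good_core (D : Set V) : Good G D (core G D) := by
  constructor
  · intro v hv
    obtain ⟨S, hvS, g⟩ := mem_core.1 hv
    exact g.1 v hvS
  · intro v hv
    obtain ⟨S, hvS, g⟩ := mem_core.1 hv
    obtain ⟨x, y, hxy, hx, hy, h1, h2⟩ := g.2 v hvS
    exact ⟨x, y, hxy, g.subset_core hx, g.subset_core hy, h1, h2⟩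

theorem tri3 (hN : Cub G) (hF : CFree G) {v u : V} (hv : Pure G v) (hu : u ∈ tri G v)
    (huv : u ≠ v) : ∃ z, z ≠ v ∧ z ≠ u ∧ Pure G z ∧ tri G v = {v, u, z} ∧
      (∀ w, G.Adj v w ↔ w = u ∨ w = z ∨ w = out G v) ∧
      (∀ w, G.Adj u w ↔ w = v ∨ w = z ∨ w = out G u) ∧
      (∀ w, G.Adj z w ↔ w = v ∨ w = u ∨ w = out G z) := by
  obtain ⟨x, y, hxv, hyv, hxy, -, -, ha, px, py, h4, ht, hx', hy'⟩ := pure_struct hN hF hv
  rw [ht] at hu ⊢
  simp only [Finset.mem_insert, Finset.mem_singleton] at hu
  rcases hu with h | rfl | rfl
  · exact absurd h huv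
  · exact ⟨y, hyv, hxy.symm, py, rfl, h4, hx', hy'⟩
  · refine ⟨x, hxv, hxy, px, ?_, fun w => by rw [h4]; tauto, hy', hx'⟩
    ext w
    simp only [Finset.mem_insert, Finset.mem_singleton]
    tauto

theorem switch_aux (hN : Cub G) (hF : CFree G) {D D' : Set V}
    (hit : ∀ v, v ∉ D → ∃ u ∈ D, G.Adj v u)
    (hA : Am G ⊆ D) {x x' : V} (hx : Pure G x) (hx' : x' ∈ tri G x) (hne : x' ≠ x)
    (hxD : x' ∈ D) (hD1 : x ∈ D') (hD2 : ∀ v ∈ D, v ≠ x' → v ∈ D')
    {K K' : Finset V} (gK : Good G D K) (gK' : Good G D' K') (hxK : x ∈ K)
    (e' : End G (out G x')) : x' ∉ K' := by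
  classical
  obtain ⟨z, hzx, hzx', pz, ht, nx, nx', nz⟩ := tri3 hN hF hx hx' hne
  have hx'K : x' ∉ K := fun h => gK.1 _ h hxD
  have hxK' : x ∉ K' := fun h => gK'.1 _ h hD1
  have px' : Pure G x' := pure_of_mem_tri hN hF hx hx'
  -- the end vertex of the string at `x'` is not in `K`
  have hend : out G x' ∉ K := by
    intro h
    obtain ⟨w, hw1, hw2⟩ := e'.2
    obtain ⟨b, c, hb, hc, hbc, hbo, hco, -, hn⟩ := end_struct hN hF e'.1 hw1 hw2
    rw [out_out hN hF px'.1] at hn
    have := gK.two h (a := b) (b := c) (c := x') hn (fun h => gK.1 _ h (hA hb))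
    exact hx'K this.2
  intro h'
  have h1 := gK'.two h' (a := x) (b := z) (c := out G x') nx' hxK'
  have h2 := gK'.two h1.1 (a := x) (b := x') (c := out G z) nz hxK'
  have h3 := gK.two hxK (a := x') (b := z) (c := out G x) nx hx'K
  have h4 := gK.two h3.1 (a := x') (b := x) (c := out G z)
    (fun w => by rw [nz]; tauto) hx'K
  let H : SimpleGraph V :=
    { Adj := fun u w => (u ∈ K ∧ u ∈ K') ∧ (w ∈ K ∧ w ∈ K') ∧ G.Adj u w
      symm := ⟨fun u w h => ⟨h.2.1, h.1, h.2.2.symm⟩⟩
      loopless := ⟨fun u h => G.irrefl h.2.2⟩ }
  have hHadj : ∀ u w, H.Adj u w ↔ (u ∈ K ∧ u ∈ K') ∧ (w ∈ K ∧ w ∈ K') ∧ G.Adj u w :=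
    fun u w => Iff.rfl
  clear_value H
  have hdz : H.degree z = 1 := by
    rw [← SimpleGraph.card_neighborFinset_eq_degree, Finset.card_eq_one]
    refine ⟨out G z, ?_⟩
    ext w
    rw [SimpleGraph.mem_neighborFinset, Finset.mem_singleton, hHadj]
    constructor
    · rintro ⟨-, hw, hzw⟩
      rcases (nz w).1 hzw with h | h | h
      · exact absurd (h ▸ hw.2) hxK'
      · exact absurd (h ▸ hw.1) hx'K
      · exact h
    · rintro rfl
      exact ⟨⟨h3.1, h1.1⟩, ⟨h4.2, h2.2⟩, (out_spec pz.1).1⟩
  have hdu : ∀ u, u ≠ z → ¬ Odd (H.degree u) := by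
    intro u huz
    by_cases huL' : u ∈ K ∧ u ∈ K'
    · have huD : u ∉ D := gK.1 _ huL'.1
      obtain ⟨d, hdD, hud⟩ := hit u huD
      obtain ⟨p, q, hpq, hpd, hqd, hn⟩ : ∃ p q, p ≠ q ∧ p ≠ d ∧ q ≠ d ∧
          ∀ w, G.Adj u w ↔ w = d ∨ w = p ∨ w = q := by
        obtain ⟨a, b, c, hab, hac, hbc, hn⟩ := hN u
        rcases (hn d).1 hud with h | h | h
        · subst h
          exact ⟨b, c, hbc, hab.symm, hac.symm, hn⟩
        · subst h
          exact ⟨a, c, hac, hab, hbc.symm, fun w => by rw [hn]; tauto⟩
        · subst h
          exact ⟨a, b, hab, hac, hbc, fun w => by rw [hn]; tauto⟩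
      have hdK : d ∉ K := fun h => gK.1 _ h hdD
      have hdK' : d ∉ K' := by
        intro h
        have hd' : d ∉ D' := gK'.1 _ h
        have hdx : d = x' := by
          by_contra hcon
          exact hd' (hD2 d hdD hcon)
        subst hdx
        rcases (nx' u).1 hud.symm with h | h | h
        · exact hxK' (h ▸ huL'.2)
        · exact huz h
        · exact hend (h ▸ huL'.1)
      have k1 := gK.two huL'.1 hn hdK
      have k2 := gK'.two huL'.2 hn hdK'
      have : H.degree u = 2 := by
        rw [← SimpleGraph.card_neighborFinset_eq_degree, Finset.card_eq_two]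
        refine ⟨p, q, hpq, ?_⟩
        ext w
        rw [SimpleGraph.mem_neighborFinset, Finset.mem_insert, Finset.mem_singleton, hHadj]
        constructor
        · rintro ⟨-, hw, huw⟩
          rcases (hn w).1 huw with h | h | h
          · exact absurd (h ▸ hw.1) hdK
          · exact Or.inl h
          · exact Or.inr h
        · rintro (rfl | rfl)
          · exact ⟨huL', ⟨k1.1, k2.1⟩, (hn _).2 (Or.inr (Or.inl rfl))⟩
          · exact ⟨huL', ⟨k1.2, k2.2⟩, (hn _).2 (Or.inr (Or.inr rfl))⟩
      rw [this]
      decide
    · have : H.degree u = 0 := by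
        rw [← SimpleGraph.card_neighborFinset_eq_degree, Finset.card_eq_zero]
        ext w
        simp only [SimpleGraph.mem_neighborFinset, Finset.notMem_empty, iff_false]
        exact fun h => huL' ((hHadj _ _).1 h).1
      rw [this]
      decide
  have hev := H.even_card_odd_degree_vertices
  have hset : (Finset.univ.filter (fun v => Odd (H.degree v))) = {z} := by
    ext u
    simp only [Finset.mem_filter, Finset.mem_univ, true_and, Finset.mem_singleton]
    constructor
    · intro h
      by_contra hne
      exact hdu u hne h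
    · rintro rfl
      rw [hdz]
      exact odd_one
  rw [hset] at hev
  simp at hev

/-- Switching the deleted vertex of a triangle with two strings shrinks the core. -/
theorem switch (hN : Cub G) (hF : CFree G) {D D' : Set V}
    (hit : ∀ v, v ∉ D → ∃ u ∈ D, G.Adj v u)
    (hA : Am G ⊆ D) {x x' : V} (hx : Pure G x) (hx' : x' ∈ tri G x) (hne : x' ≠ x)
    (hxD : x' ∈ D) (hD1 : x ∈ D') (hD2 : ∀ v ∈ D, v ≠ x' → v ∈ D')
    (hxK : x ∈ core G D) (e' : End G (out G x')) :
    (core G D').card < (core G D).card := by
  have main := switch_aux hN hF hit hA hx hx' hne hxD hD1 hD2 (good_core D) (good_core D') hxK e'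
  have gK' := good_core (G := G) D'
  have hgood : Good G D (core G D') := by
    refine ⟨fun v hv hvD => ?_, gK'.2⟩
    apply gK'.1 v hv
    refine hD2 v hvD ?_
    rintro rfl
    exact main hv
  apply Finset.card_lt_card
  exact ⟨hgood.subset_core, fun h => gK'.1 _ (h hxK) hD1⟩

/-- Two partial matchings (given by involutions) have a common proper 2-colouring. -/
theorem two_inv (n : ℕ) : ∀ (S : Finset V) (f g : V → V), S.card = n →
    (∀ x ∈ S, f x ∈ S ∧ f (f x) = x) → (∀ x ∈ S, g x ∈ S ∧ g (g x) = x) →
    ∃ c : V → Bool, ∀ x ∈ S, (f x ≠ x → c (f x) ≠ c x) ∧ (g x ≠ x → c (g x) ≠ c x) := by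
  induction n using Nat.strong_induction_on with
  | _ n ih =>
    intro S f g hn hf hg
    rcases S.eq_empty_or_nonempty with rfl | ⟨u, hu⟩
    · exact ⟨fun _ => true, by simp⟩
    -- a single vertex `u`, fixed by `f`
    have single : ∀ f g : V → V, (∀ x ∈ S, f x ∈ S ∧ f (f x) = x) →
        (∀ x ∈ S, g x ∈ S ∧ g (g x) = x) → f u = u →
        ∃ c : V → Bool, ∀ x ∈ S, (f x ≠ x → c (f x) ≠ c x) ∧ (g x ≠ x → c (g x) ≠ c x) := by
      intro f g hf hg hfu
      have hcard : (S.erase u).card < n := by
        rw [← hn]; exact Finset.card_erase_lt_of_mem hu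
      have hf' : ∀ x ∈ S.erase u, f x ∈ S.erase u ∧ f (f x) = x := by
        intro x hx
        rw [Finset.mem_erase] at hx
        refine ⟨Finset.mem_erase.2 ⟨fun h => hx.1 ?_, (hf x hx.2).1⟩, (hf x hx.2).2⟩
        rw [← (hf x hx.2).2, h, hfu]
      by_cases hgu : g u = u
      · have hg' : ∀ x ∈ S.erase u, g x ∈ S.erase u ∧ g (g x) = x := by
          intro x hx
          rw [Finset.mem_erase] at hx
          refine ⟨Finset.mem_erase.2 ⟨fun h => hx.1 ?_, (hg x hx.2).1⟩, (hg x hx.2).2⟩
          rw [← (hg x hx.2).2, h, hgu]
        obtain ⟨c, hc⟩ := ih _ hcard (S.erase u) f g rfl hf' hg'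
        refine ⟨c, fun x hx => ?_⟩
        by_cases hxu : x = u
        · subst hxu
          exact ⟨fun h => absurd hfu h, fun h => absurd hgu h⟩
        · exact hc x (Finset.mem_erase.2 ⟨hxu, hx⟩)
      · set v := g u with hv
        have hvS : v ∈ S := (hg u hu).1
        have hgv : g v = u := (hg u hu).2
        let g' : V → V := Function.update g v v
        have hg'v : g' v = v := Function.update_self ..
        have hg'x : ∀ x, x ≠ v → g' x = g x := fun x hx => Function.update_of_ne hx ..
        have hg' : ∀ x ∈ S.erase u, g' x ∈ S.erase u ∧ g' (g' x) = x := by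
          intro x hx
          rw [Finset.mem_erase] at hx
          by_cases hxv : x = v
          · subst hxv
            rw [hg'v, hg'v]
            exact ⟨Finset.mem_erase.2 hx, rfl⟩
          · rw [hg'x x hxv]
            have h1 : g x ≠ u := fun h => hxv (by rw [← (hg x hx.2).2, h])
            have h2 : g x ≠ v := fun h => hx.1 (by rw [← (hg x hx.2).2, h, hgv])
            rw [hg'x _ h2]
            exact ⟨Finset.mem_erase.2 ⟨h1, (hg x hx.2).1⟩, (hg x hx.2).2⟩
        obtain ⟨c, hc⟩ := ih _ hcard (S.erase u) f g' rfl hf' hg'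
        refine ⟨Function.update c u (!c v), fun x hx => ?_⟩
        by_cases hxu : x = u
        · subst hxu
          refine ⟨fun h => absurd hfu h, fun _ => ?_⟩
          rw [Function.update_self, ← hv, Function.update_of_ne hgu]
          cases c v <;> simp
        · have hxe : x ∈ S.erase u := Finset.mem_erase.2 ⟨hxu, hx⟩
          have h1 : f x ≠ u := (Finset.mem_erase.1 (hf' x hxe).1).1
          refine ⟨fun h => ?_, fun h => ?_⟩
          · rw [Function.update_of_ne h1, Function.update_of_ne hxu]
            exact (hc x hxe).1 h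
          · by_cases hxv : x = v
            · subst hxv
              rw [hgv, Function.update_self, Function.update_of_ne hxu]
              cases c (g u) <;> simp
            · have h2 : g x ≠ u := fun h => hxv (by rw [← (hg x hx).2, h])
              rw [Function.update_of_ne h2, Function.update_of_ne hxu]
              have := (hc x hxe).2
              rw [hg'x x hxv] at this
              exact this h
    by_cases hfu : f u = u
    · exact single f g hf hg hfu
    by_cases hgu : g u = u
    · obtain ⟨c, hc⟩ := single g f hg hf hgu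
      exact ⟨c, fun x hx => ⟨(hc x hx).2, (hc x hx).1⟩⟩
    -- now both are moved
    set u' := f u with hu'
    have hu'S : u' ∈ S := (hf u hu).1
    have hfu' : f u' = u := (hf u hu).2
    set S' := (S.erase u).erase u' with hS'
    have hmemS' : ∀ x, x ∈ S' ↔ x ≠ u' ∧ x ≠ u ∧ x ∈ S := by
      intro x; rw [hS', Finset.mem_erase, Finset.mem_erase]
    have hcard : S'.card < n := by
      rw [← hn]
      apply Finset.card_lt_card
      refine ⟨fun x hx => ((hmemS' x).1 hx).2.2, fun h => ?_⟩
      exact ((hmemS' u).1 (h hu)).2.1 rfl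
    have hf' : ∀ x ∈ S', f x ∈ S' ∧ f (f x) = x := by
      intro x hx
      rw [hmemS'] at hx
      refine ⟨(hmemS' _).2 ⟨fun h => hx.2.1 ?_, fun h => hx.1 ?_, (hf x hx.2.2).1⟩,
        (hf x hx.2.2).2⟩
      · rw [← (hf x hx.2.2).2, h, hfu']
      · rw [← (hf x hx.2.2).2, h]
    set v := g u with hv
    set v' := g u' with hv'
    have hvS : v ∈ S := (hg u hu).1
    have hgv : g v = u := (hg u hu).2
    have hv'S : v' ∈ S := (hg u' hu'S).1
    have hgv' : g v' = u' := (hg u' hu'S).2
    by_cases hvu' : v = u'
    · -- `u` and `u'` are also matched by `g`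
      have hv'u : v' = u := by rw [hv', ← hvu', hgv]
      have hg' : ∀ x ∈ S', g x ∈ S' ∧ g (g x) = x := by
        intro x hx
        rw [hmemS'] at hx
        refine ⟨(hmemS' _).2 ⟨fun h => hx.2.1 ?_, fun h => hx.1 ?_, (hg x hx.2.2).1⟩,
          (hg x hx.2.2).2⟩
        · rw [← (hg x hx.2.2).2, h, ← hv', hv'u]
        · rw [← (hg x hx.2.2).2, h, ← hv, hvu']
      obtain ⟨c, hc⟩ := ih _ hcard S' f g rfl hf' hg'
      refine ⟨Function.update (Function.update c u true) u' false, fun x hx => ?_⟩
      by_cases hxu' : x = u'
      · subst hxu'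
        rw [hfu', ← hv', hv'u, Function.update_self, Function.update_of_ne (Ne.symm hfu),
          Function.update_self]
        simp
      · by_cases hxu : x = u
        · subst hxu
          rw [← hu', ← hv, hvu', Function.update_self, Function.update_of_ne (Ne.symm hfu),
            Function.update_self]
          simp
        · have hxS' : x ∈ S' := (hmemS' x).2 ⟨hxu', hxu, hx⟩
          have h1 := (hmemS' _).1 (hf' x hxS').1
          have h2 := (hmemS' _).1 (hg' x hxS').1
          rw [Function.update_of_ne h1.1, Function.update_of_ne h1.2.1,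
            Function.update_of_ne h2.1, Function.update_of_ne h2.2.1,
            Function.update_of_ne hxu', Function.update_of_ne hxu]
          exact hc x hxS'
    · -- `v ∉ {u, u'}`
      have hv'u : v' ≠ u := fun h => hvu' (by rw [hv, ← h, hgv'])
      by_cases hv'u' : v' = u'
      · -- `u'` is fixed by `g`
        let g' : V → V := Function.update g v v
        have hg'v : g' v = v := Function.update_self ..
        have hg'x : ∀ x, x ≠ v → g' x = g x := fun x hx => Function.update_of_ne hx ..
        have hg' : ∀ x ∈ S', g' x ∈ S' ∧ g' (g' x) = x := by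
          intro x hx
          have hx' := (hmemS' x).1 hx
          by_cases hxv : x = v
          · subst hxv
            rw [hg'v, hg'v]
            exact ⟨hx, rfl⟩
          · rw [hg'x x hxv]
            have h1 : g x ≠ u := fun h => hxv (by rw [← (hg x hx'.2.2).2, h])
            have h2 : g x ≠ v := fun h => hx'.2.1 (by rw [← (hg x hx'.2.2).2, h, hgv])
            have h3 : g x ≠ u' := fun h => hx'.1 (by
              rw [← (hg x hx'.2.2).2, h, ← hv', hv'u'])
            rw [hg'x _ h2]
            exact ⟨(hmemS' _).2 ⟨h3, h1, (hg x hx'.2.2).1⟩, (hg x hx'.2.2).2⟩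
        obtain ⟨c, hc⟩ := ih _ hcard S' f g' rfl hf' hg'
        refine ⟨Function.update (Function.update c u (!c v)) u' (c v), fun x hx => ?_⟩
        by_cases hxu' : x = u'
        · subst hxu'
          rw [hfu', ← hv', hv'u', Function.update_self, Function.update_of_ne (Ne.symm hfu),
            Function.update_self]
          refine ⟨fun _ => by cases c v <;> simp, fun h => absurd rfl h⟩
        · by_cases hxu : x = u
          · subst hxu
            rw [← hu', ← hv, Function.update_self, Function.update_of_ne (Ne.symm hfu),
              Function.update_self, Function.update_of_ne hvu', Function.update_of_ne hgu]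
            exact ⟨fun _ => by cases c v <;> simp, fun _ => by cases c v <;> simp⟩
          · have hxS' : x ∈ S' := (hmemS' x).2 ⟨hxu', hxu, hx⟩
            have h1 := (hmemS' _).1 (hf' x hxS').1
            rw [Function.update_of_ne hxu', Function.update_of_ne hxu]
            refine ⟨fun h => ?_, fun h => ?_⟩
            · rw [Function.update_of_ne h1.1, Function.update_of_ne h1.2.1]
              exact (hc x hxS').1 h
            · by_cases hxv : x = v
              · subst hxv
                rw [hgv, Function.update_of_ne (Ne.symm hfu), Function.update_self]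
                cases c (g u) <;> simp
              · have h2 : g x ≠ u := fun h => hxv (by rw [← (hg x hx).2, h])
                have h3 : g x ≠ u' := fun h => hxu' (by
                  rw [← (hg x hx).2, h, ← hv', hv'u'])
                rw [Function.update_of_ne h3, Function.update_of_ne h2]
                have := (hc x hxS').2
                rw [hg'x x hxv] at this
                exact this h
      · -- generic case: join `v` and `v'`
        have hvv' : v ≠ v' := fun h => hfu (by rw [← hgv', ← h, hgv])
        let g' : V → V := Function.update (Function.update g v v') v' v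
        have hg'v' : g' v' = v := Function.update_self ..
        have hg'v : g' v = v' := by
          show Function.update (Function.update g v v') v' v v = v'
          rw [Function.update_of_ne hvv', Function.update_self]
        have hg'x : ∀ x, x ≠ v → x ≠ v' → g' x = g x := by
          intro x h1 h2
          show Function.update (Function.update g v v') v' v x = g x
          rw [Function.update_of_ne h2, Function.update_of_ne h1]
        have hvS' : v ∈ S' := (hmemS' v).2 ⟨hvu', hgu, hvS⟩
        have hv'S' : v' ∈ S' := (hmemS' v').2 ⟨hv'u', hv'u, hv'S⟩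
        have hg' : ∀ x ∈ S', g' x ∈ S' ∧ g' (g' x) = x := by
          intro x hx
          have hx' := (hmemS' x).1 hx
          by_cases hxv : x = v
          · subst hxv
            rw [hg'v, hg'v']
            exact ⟨hv'S', rfl⟩
          · by_cases hxv' : x = v'
            · subst hxv'
              rw [hg'v', hg'v]
              exact ⟨hvS', rfl⟩
            · rw [hg'x x hxv hxv']
              have h1 : g x ≠ u := fun h => hxv (by rw [← (hg x hx'.2.2).2, h])
              have h2 : g x ≠ v := fun h => hx'.2.1 (by rw [← (hg x hx'.2.2).2, h, hgv])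
              have h3 : g x ≠ u' := fun h => hxv' (by rw [← (hg x hx'.2.2).2, h])
              have h4 : g x ≠ v' := fun h => hx'.1 (by rw [← (hg x hx'.2.2).2, h, hgv'])
              rw [hg'x _ h2 h4]
              exact ⟨(hmemS' _).2 ⟨h3, h1, (hg x hx'.2.2).1⟩, (hg x hx'.2.2).2⟩
        obtain ⟨c, hc⟩ := ih _ hcard S' f g' rfl hf' hg'
        have hcvv : c v' ≠ c v := by
          have := (hc v hvS').2
          rw [hg'v] at this
          exact this hvv'.symm
        refine ⟨Function.update (Function.update c u (c v')) u' (c v), fun x hx => ?_⟩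
        by_cases hxu' : x = u'
        · subst hxu'
          rw [hfu', ← hv', Function.update_self, Function.update_of_ne (Ne.symm hfu),
            Function.update_self, Function.update_of_ne hv'u', Function.update_of_ne hv'u]
          exact ⟨fun _ => hcvv, fun _ => hcvv⟩
        · by_cases hxu : x = u
          · subst hxu
            rw [← hu', ← hv, Function.update_self, Function.update_of_ne (Ne.symm hfu),
              Function.update_self, Function.update_of_ne hvu', Function.update_of_ne hgu]
            exact ⟨fun _ => hcvv.symm, fun _ => hcvv.symm⟩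
          · have hxS' : x ∈ S' := (hmemS' x).2 ⟨hxu', hxu, hx⟩
            have h1 := (hmemS' _).1 (hf' x hxS').1
            rw [Function.update_of_ne hxu', Function.update_of_ne hxu]
            refine ⟨fun h => ?_, fun h => ?_⟩
            · rw [Function.update_of_ne h1.1, Function.update_of_ne h1.2.1]
              exact (hc x hxS').1 h
            · by_cases hxv : x = v
              · subst hxv
                rw [hgv, Function.update_of_ne (Ne.symm hfu), Function.update_self]
                exact hcvv
              · by_cases hxv' : x = v'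
                · subst hxv'
                  rw [hgv', Function.update_self]
                  exact hcvv.symm
                · have h2 : g x ≠ u := fun h => hxv (by rw [← (hg x hx).2, h])
                  have h3 : g x ≠ u' := fun h => hxv' (by rw [← (hg x hx).2, h])
                  rw [Function.update_of_ne h3, Function.update_of_ne h2]
                  have := (hc x hxS').2
                  rw [hg'x x hxv hxv'] at this
                  exact this h

/-- If all good sets are 2-colourable then the complement of `D` is 2-colourable. -/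
theorem colour_of_good {D : Set V}
    (hg : ∀ S : Finset V, Good G D S → ∃ c : V → Bool, ∀ u ∈ S, ∀ w ∈ S, G.Adj u w → c u ≠ c w) :
    ∃ c : V → Bool, ∀ u w, u ∉ D → w ∉ D → G.Adj u w → c u ≠ c w := by
  classical
  have key : ∀ n (S : Finset V), S.card = n → (∀ v ∈ S, v ∉ D) →
      ∃ c : V → Bool, ∀ u ∈ S, ∀ w ∈ S, G.Adj u w → c u ≠ c w := by
    intro n
    induction n using Nat.strong_induction_on with
    | _ n ih =>
      intro S hn hS
      by_cases h : ∀ v ∈ S, ∃ x y, x ≠ y ∧ x ∈ S ∧ y ∈ S ∧ G.Adj v x ∧ G.Adj v y
      · exact hg S ⟨hS, h⟩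
      · push Not at h
        obtain ⟨v, hv, hv2⟩ := h
        obtain ⟨c, hc⟩ := ih _ (by rw [← hn]; exact Finset.card_erase_lt_of_mem hv) (S.erase v) rfl
          (fun w hw => hS w (Finset.mem_of_mem_erase hw))
        by_cases hx : ∃ x ∈ S, G.Adj v x
        · obtain ⟨x, hxS, hvx⟩ := hx
          have huniq : ∀ y ∈ S, G.Adj v y → y = x := by
            intro y hy hvy
            by_contra hne
            exact hv2 x y (Ne.symm hne) hxS hy hvx hvy
          refine ⟨Function.update c v (!c x), fun u hu w hw huw => ?_⟩
          by_cases huv : u = v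
          · subst huv
            have := huniq w hw huw
            subst this
            rw [Function.update_self, Function.update_of_ne huw.ne']
            cases c w <;> simp
          · by_cases hwv : w = v
            · subst hwv
              have := huniq u hu huw.symm
              subst this
              rw [Function.update_self, Function.update_of_ne huv]
              cases c u <;> simp
            · rw [Function.update_of_ne huv, Function.update_of_ne hwv]
              exact hc u (Finset.mem_erase.2 ⟨huv, hu⟩) w (Finset.mem_erase.2 ⟨hwv, hw⟩) huw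
        · push Not at hx
          refine ⟨c, fun u hu w hw huw => ?_⟩
          by_cases huv : u = v
          · subst huv
            exact absurd huw (hx w hw)
          · by_cases hwv : w = v
            · subst hwv
              exact absurd huw.symm (hx u hu)
            · exact hc u (Finset.mem_erase.2 ⟨huv, hu⟩) w (Finset.mem_erase.2 ⟨hwv, hw⟩) huw
  obtain ⟨c, hc⟩ := key _ (Finset.univ.filter (fun v => v ∉ D)) rfl (fun v hv => by
    simpa using hv)
  exact ⟨c, fun u w hu hw huw => hc u (by simpa using hu) w (by simpa using hw) huw⟩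

end Pool.Agent.Q271.CF
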