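import Pool.Agent.Q271.CF.Select

/-!
# Claw-free cubic graphs are `(1,1,2,3)`-packing colourable
-/

namespace Pool.Agent.Q271.CF

variable {V : Type*} {G : SimpleGraph V} [Fintype V] [DecidableEq V]

/-- `A0` is a 2-packing. -/
theorem A0_pack (hN : Cub G) (hF : CFree G) {U : Finset V} (hU : Indep G U) {r : Finset V → V}
    (hr : ∀ v, Pure G v → v ∉ U → r (tri G v) ∈ tri G v ∧ out G (r (tri G v)) ∈ U)
    {y z : V} (hy : y ∈ A0 G U r) (hz : z ∈ A0 G U r) (hne : y ≠ z) :
    ¬ G.Adj y z ∧ ¬ ∃ x, G.Adj y x ∧ G.Adj x z := by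
  -- a middle representative and a pure vertex
  have mixed : ∀ b v, b ∈ Am G → Pure G v ∧ v ∉ U ∧ r (tri G v) = v →
      ¬ G.Adj b v ∧ ¬ ∃ x, G.Adj b x ∧ G.Adj x v := by
    intro b v hb hv
    refine ⟨fun h => mid_nbr hN hF hb.1 h hv.1, ?_⟩
    rintro ⟨x, hx1, hx2⟩
    have hxp : ¬ Pure G x := mid_nbr hN hF hb.1 hx1
    rcases adj_pure hN hF hv.1 hx2.symm with h | h
    · exact hxp (pure_of_mem_tri hN hF hv.1 h)
    · have := (hr v hv.1 hv.2.1).2
      rw [hv.2.2] at this
      exact hxp (hU.1 x (h ▸ this))
  rcases hy with hy | hy <;> rcases hz with hz | hz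
  · refine ⟨fun h => adj_mid_mid hN hF hy hz h, ?_⟩
    rintro ⟨x, hx1, hx2⟩
    rcases trichotomy (G := G) x with hx | hx | hx
    · by_cases hxA : x ∈ Am G
      · exact adj_mid_mid hN hF hy hxA hx1
      · obtain ⟨b0, a, d, hb0, h1, h2, h3, hn, hn0⟩ := mid_nonA hN hx hxA
        have key : ∀ b ∈ Am G, G.Adj x b → b = b0 := by
          intro b hb hxb
          rcases (hn b).1 hxb with h | h | h
          · exact h
          · exact (adj_mid_mid hN hF hb0 (h ▸ hb) ((hn0 a).2 (Or.inr (Or.inl rfl)))).elim
          · exact (adj_mid_mid hN hF hb0 (h ▸ hb) ((hn0 d).2 (Or.inr (Or.inr rfl)))).elim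
        exact hne ((key y hy hx1.symm).trans (key z hz hx2).symm)
    · exact hx.2 z hx2 hz.1
    · obtain ⟨w, hw1, hw2⟩ := hx.2
      obtain ⟨b, c, hb, hc, hbc, -, -, hbc', hn⟩ := end_struct hN hF hx.1 hw1 hw2
      have key : ∀ v ∈ Am G, G.Adj x v → v = b ∨ v = c := by
        intro v hv hxv
        rcases (hn v).1 hxv with h | h | h
        · exact Or.inl h
        · exact Or.inr h
        · exact absurd (h ▸ hv.1) (out_nonmid hx.1)
      have hyz : G.Adj y z := by
        rcases key y hy hx1.symm with h | h <;> rcases key z hz hx2 with h' | h'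
        · exact absurd (h.trans h'.symm) hne
        · rw [h, h']; exact hbc'
        · rw [h, h']; exact hbc'.symm
        · exact absurd (h.trans h'.symm) hne
      exact adj_mid_mid hN hF hy hz hyz
  · exact mixed y z hy hz
  · have := mixed z y hz hy
    exact ⟨fun h => this.1 h.symm, fun ⟨x, h1, h2⟩ => this.2 ⟨x, h2.symm, h1.symm⟩⟩
  · have htri : tri G y ≠ tri G z := by
      intro h
      apply hne
      rw [← hy.2.2, h, hz.2.2]
    have hoy : out G y ∈ U := by
      have := (hr y hy.1 hy.2.1).2
      rwa [hy.2.2] at this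
    have hoz : out G z ∈ U := by
      have := (hr z hz.1 hz.2.1).2
      rwa [hz.2.2] at this
    have hyz : z ∉ tri G y := fun h => htri (tri_eq hN hF hy.1 h).symm
    refine ⟨fun h => ?_, ?_⟩
    · rcases adj_pure hN hF hy.1 h with h | h
      · exact hyz h
      · exact hz.2.1 (h ▸ hoy)
    · rintro ⟨x, hx1, hx2⟩
      rcases adj_pure hN hF hy.1 hx1 with h | h
      · have px := pure_of_mem_tri hN hF hy.1 h
        have hxU : x ∉ U := fun h' => hy.2.1 (hU.2.1 x h' (mem_tri_comm hN hF hy.1 h))
        rcases adj_pure hN hF px hx2 with h' | h'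
        · rw [tri_eq hN hF hy.1 h] at h'
          exact hyz h'
        · apply hxU
          rw [h', out_out hN hF px.1] at hoz
          exact hoz
      · subst h
        have px := hU.1 _ hoy
        rcases adj_pure hN hF px hx2 with h' | h'
        · exact hz.2.1 (hU.2.1 _ hoy h')
        · rw [out_out hN hF hy.1.1] at h'
          exact hne h'.symm

/-- a 3-packing in terms of `Near3` -/
def P3 (G : SimpleGraph V) (B : Finset V) : Prop := ∀ u ∈ B, ∀ v ∈ B, u ≠ v → ¬ Near3 G u v

/-- The main structural result. -/
theorem main [Nonempty V] (hN : Cub G) (hF : CFree G) :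
    ∃ (A B : Set V) (c : V → Bool), Disjoint A B ∧
      (∀ u ∈ A, ∀ v ∈ A, u ≠ v → ¬ G.Adj u v ∧ ¬ ∃ x, G.Adj u x ∧ G.Adj x v) ∧
      (∀ u ∈ B, ∀ v ∈ B, u ≠ v → ¬ Near3 G u v) ∧
      (∀ u v, u ∉ A → u ∉ B → v ∉ A → v ∉ B → G.Adj u v → c u ≠ c v) := by
  classical
  obtain ⟨U, hU, hUmax⟩ := exists_U hN hF
  have hrex : ∀ t : Finset V, ∃ x : V, (∃ y ∈ t, out G y ∈ U) → x ∈ t ∧ out G x ∈ U := by
    intro t
    by_cases h : ∃ y ∈ t, out G y ∈ U
    · obtain ⟨y, hy⟩ := h
      exact ⟨y, fun _ => hy⟩
    · exact ⟨Classical.arbitrary V, fun h' => absurd h' h⟩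
  choose r hr0 using hrex
  have hr : ∀ v, Pure G v → v ∉ U → r (tri G v) ∈ tri G v ∧ out G (r (tri G v)) ∈ U :=
    fun v hv hvU => hr0 _ (hUmax v hv hvU)
  obtain ⟨p, hp, hopt⟩ := exists_opt hN hF hU hr
  -- the set `B`
  let B0 : Finset V := Finset.univ.filter (fun v => v ∈ U ∧ p (tri G v) = v)
  have hB0 : ∀ v, v ∈ B0 ↔ v ∈ U ∧ p (tri G v) = v := fun v => by simp [B0]
  let F : Finset (Finset V) := Finset.univ.filter (fun B =>
    B0 ⊆ B ∧ (∀ v ∈ B, v ∈ B0 ∨ (Mid G v ∧ v ∉ Am G)) ∧ P3 G B)
  have hFne : F.Nonempty := by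
    refine ⟨B0, Finset.mem_filter.2 ⟨Finset.mem_univ _, Finset.Subset.refl _,
      fun v hv => Or.inl hv, fun u hu v hv huv => ?_⟩⟩
    exact B0_pack hN hF hU hp ((hB0 u).1 hu) ((hB0 v).1 hv) huv
  obtain ⟨B, hB, hBmax⟩ := Finset.exists_max_image F Finset.card hFne
  obtain ⟨-, hB0B, hBsub, hBP⟩ := Finset.mem_filter.1 hB
  have hBnear : ∀ c, Mid G c → c ∉ Am G → c ∉ B → ∃ y ∈ B, y ≠ c ∧ Near3 G c y := by
    intro c hc hcA hcB
    by_contra hcon
    push Not at hcon
    have : insert c B ∈ F := by
      refine Finset.mem_filter.2 ⟨Finset.mem_univ _, hB0B.trans (Finset.subset_insert _ _),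
        fun v hv => ?_, ?_⟩
      · rcases Finset.mem_insert.1 hv with h | h
        · exact Or.inr (h ▸ ⟨hc, hcA⟩)
        · exact hBsub v h
      · intro u hu v hv huv
        rcases Finset.mem_insert.1 hu with h | h <;> rcases Finset.mem_insert.1 hv with h' | h'
        · exact absurd (h.trans h'.symm) huv
        · rw [h]
          exact hcon v h' (fun e => huv (h.trans e.symm))
        · rw [h']
          exact fun hn => hcon u h (fun e => huv (e.trans h'.symm)) hn.symm
        · exact hBP u h v h' huv
    have h1 := hBmax _ this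
    rw [Finset.card_insert_of_notMem hcB] at h1
    omega
  have hBA : ∀ v ∈ B, v ∉ A0 G U r := by
    intro v hv hvA
    rcases hBsub v hv with h | h
    · have h' := (hB0 v).1 h
      rcases hvA with h2 | h2
      · exact (hU.1 v h'.1).1 h2.1
      · exact h2.2.1 h'.1
    · rcases hvA with h2 | h2
      · exact h.2 h2
      · exact h2.1.1 h.1
  -- the full deleted set
  let D : Set V := {v | v ∈ A0 G U r ∨ v ∈ B}
  have hD0D : D0 G U r p ⊆ D := by
    rintro v (h | h | h)
    · exact Or.inl (Or.inl h)
    · exact Or.inl (Or.inr h)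
    · exact Or.inr (hB0B ((hB0 v).2 h))
  have hgood : ∀ S : Finset V, Good G D S →
      ∃ c : V → Bool, ∀ u ∈ S, ∀ w ∈ S, G.Adj u w → c u ≠ c w := by
    intro S g
    have g0 : Good G (D0 G U r p) S := ⟨fun v hv h => g.1 v hv (hD0D h), g.2⟩
    have hScore : S ⊆ core G (D0 G U r p) := g0.subset_core
    have hAmS : ∀ b ∈ Am G, b ∉ S := fun b hb h => g.1 b h (Or.inl (Or.inl hb))
    have hBS : ∀ b ∈ B, b ∉ S := fun b hb h => g.1 b h (Or.inr hb)
    -- no middle vertex
    have hmid : ∀ c ∈ S, ¬ Mid G c := by
      intro c hcS hc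
      have hcA : c ∉ Am G := fun h => hAmS c h hcS
      have hcB : c ∉ B := fun h => hBS c h hcS
      obtain ⟨b, a, d, hb, hba, hbd, had, hn, hnb⟩ := mid_nonA hN hc hcA
      have hbS := hAmS b hb
      obtain ⟨haS, hdS⟩ := g.two hcS hn hbS
      obtain ⟨y, hyB, hyc, hnear⟩ := hBnear c hc hcA hcB
      have hyS := hBS y hyB
      have hyb : y ≠ b := fun h => hBA y hyB (Or.inl (h ▸ hb))
      -- the key claim: `y` is not a neighbour of a neighbour of `a` (or `d`)
      have key : ∀ e, (e = a ∨ e = d) → e ∈ S → ∀ w, G.Adj e w → ¬ G.Adj w y := by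
        intro e hed heS w hew hwy
        -- `e` is adjacent to `b` and to `c`
        have hec : G.Adj e c := by
          rcases hed with rfl | rfl
          · exact ((hn _).2 (Or.inr (Or.inl rfl))).symm
          · exact ((hn _).2 (Or.inr (Or.inr rfl))).symm
        have heb : G.Adj e b := by
          rcases hed with rfl | rfl
          · exact ((hnb _).2 (Or.inr (Or.inl rfl))).symm
          · exact ((hnb _).2 (Or.inr (Or.inr rfl))).symm
        by_cases hwb : w = b
        · subst hwb
          rcases (hnb y).1 hwy with h | h | h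
          · exact hyc h
          · exact hyS (h ▸ haS)
          · exact hyS (h ▸ hdS)
        by_cases hwc : w = c
        · subst hwc
          rcases (hn y).1 hwy with h | h | h
          · exact hyb h
          · exact hyS (h ▸ haS)
          · exact hyS (h ▸ hdS)
        -- so `w` is the third neighbour of `e`
        have hcb : c ≠ b := fun h => hcA (h ▸ hb)
        have hne3 := nb3 hN (Ne.symm hcb) (fun h => hwb h.symm) (fun h => hwc h.symm) heb hec hew
        have hwS : w ∈ S := (g.two heS hne3 hbS).2
        by_cases hwad : w = a ∨ w = d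
        · -- then `w` is adjacent to `b`, `c`, `e`, all neighbours known
          have hwc' : G.Adj w c := by
            rcases hwad with rfl | rfl
            · exact ((hn _).2 (Or.inr (Or.inl rfl))).symm
            · exact ((hn _).2 (Or.inr (Or.inr rfl))).symm
          have hwb' : G.Adj w b := by
            rcases hwad with rfl | rfl
            · exact ((hnb _).2 (Or.inr (Or.inl rfl))).symm
            · exact ((hnb _).2 (Or.inr (Or.inr rfl))).symm
          have := nb3 hN (Ne.symm hcb) heb.ne' hec.ne' hwb' hwc' hew.symm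
          rcases (this y).1 hwy with h | h | h
          · exact hyb h
          · exact hyc h
          · exact hyS (h ▸ heS)
        · -- `w` is not adjacent to `b` or `c`
          push Not at hwad
          have hwc' : ¬ G.Adj w c := by
            intro h
            rcases (hn w).1 h.symm with h' | h' | h'
            · exact hwb h'
            · exact hwad.1 h'
            · exact hwad.2 h'
          have hwb' : ¬ G.Adj w b := by
            intro h
            rcases (hnb w).1 h.symm with h' | h' | h'
            · exact hwc h'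
            · exact hwad.1 h'
            · exact hwad.2 h'
          have hntr : ¬ Tr G w e := by
            rintro ⟨-, x, hx1, hx2⟩
            rcases (hne3 x).1 hx2 with h | h | h
            · exact hwb' (h ▸ hx1)
            · exact hwc' (h ▸ hx1)
            · exact hx1.ne h.symm
          have hwm : ¬ Mid G w := fun h => hntr (h e hew.symm)
          have hem : ¬ Mid G e := fun h => hntr (h w hew).symm
          have hoe : e = out G w := out_uniq hN hF hew.symm hntr
          have hye : y ≠ e := fun h => hyS (h ▸ heS)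
          rcases trichotomy (G := G) w with h | h | h
          · exact hwm h
          · -- `w` pure: `y` is in its triangle
            rcases adj_pure hN hF h hwy with h' | h'
            · have py := pure_of_mem_tri hN hF h h'
              rcases hBsub y hyB with h2 | h2
              · have h3 := (hB0 y).1 h2
                have hwU : w ∈ U := hU.2.1 y h3.1 (mem_tri_comm hN hF h h')
                apply hopt w hwU (hScore hwS)
                rw [← hoe]
                exact ⟨hem, c, hec, hc⟩
              · exact py.1 h2.1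
            · exact hye (h'.trans hoe.symm)
          · -- `w` an end
            obtain ⟨u, hu1, hu2⟩ := h.2
            obtain ⟨b1, c1, hb1, hc1, -, -, -, -, hnw⟩ := end_struct hN hF hwm hu1 hu2
            have hc1S : c1 ∈ S := (g.two hwS hnw (hAmS b1 hb1)).1
            rcases (hnw y).1 hwy with h' | h' | h'
            · exact hBA y hyB (Or.inl (h' ▸ hb1))
            · exact hyS (h' ▸ hc1S)
            · exact hye (h'.trans hoe.symm)
      -- `y` is not adjacent to `c`, nor to a neighbour of `c`
      have k1 : ¬ G.Adj c y := by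
        intro h
        rcases (hn y).1 h with h | h | h
        · exact hyb h
        · exact hyS (h ▸ haS)
        · exact hyS (h ▸ hdS)
      have hac : G.Adj a c := ((hn a).2 (Or.inr (Or.inl rfl))).symm
      have hdc : G.Adj d c := ((hn d).2 (Or.inr (Or.inr rfl))).symm
      have kb : ¬ G.Adj b y := by
        intro h
        rcases (hnb y).1 h with h | h | h
        · exact hyc h
        · exact hyS (h ▸ haS)
        · exact hyS (h ▸ hdS)
      have ke : ∀ e, (e = a ∨ e = d) → e ∈ S → ¬ G.Adj e y := by
        intro e hed heS hey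
        -- `e` has neighbours `b`, `c` and `y`; but two of them must be in `S`
        have hec : G.Adj e c := by
          rcases hed with rfl | rfl
          · exact hac
          · exact hdc
        have heb : G.Adj e b := by
          rcases hed with rfl | rfl
          · exact ((hnb _).2 (Or.inr (Or.inl rfl))).symm
          · exact ((hnb _).2 (Or.inr (Or.inr rfl))).symm
        have hcb : c ≠ b := fun h => hcA (h ▸ hb)
        have hne3 := nb3 hN (Ne.symm hcb) (Ne.symm hyb) (Ne.symm hyc) heb hec hey
        exact hyS (g.two heS hne3 hbS).2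
      rcases hnear with h | ⟨x, hx1, hx2⟩ | ⟨x, w, hx1, hxw, hw⟩
      · exact k1 h
      · rcases (hn x).1 hx1 with h | h | h
        · exact kb (h ▸ hx2)
        · exact ke a (Or.inl rfl) haS (h ▸ hx2)
        · exact ke d (Or.inr rfl) hdS (h ▸ hx2)
      · rcases (hn x).1 hx1 with h | h | h
        · subst h
          rcases (hnb w).1 hxw with h' | h' | h'
          · exact k1 (h' ▸ hw)
          · exact ke a (Or.inl rfl) haS (h' ▸ hw)
          · exact ke d (Or.inr rfl) hdS (h' ▸ hw)
        · subst h
          exact key x (Or.inl rfl) haS w hxw hw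
        · subst h
          exact key x (Or.inr rfl) hdS w hxw hw
    have hend : ∀ v ∈ S, ¬ End G v := by
      intro v hvS hv
      obtain ⟨u, hu1, hu2⟩ := hv.2
      obtain ⟨b, c, hb, hc, -, -, -, -, hn⟩ := end_struct hN hF hv.1 hu1 hu2
      exact hmid c (g.two hvS hn (hAmS b hb)).1 hc
    have hpure : ∀ v ∈ S, Pure G v := by
      intro v hv
      rcases trichotomy (G := G) v with h | h | h
      · exact absurd h (hmid v hv)
      · exact h
      · exact absurd h (hend v hv)
    -- every vertex of `S` has at most one triangle mate in `S`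
    have huniq : ∀ v ∈ S, ∀ x ∈ S, ∀ y ∈ S, Tr G v x → Tr G v y → x = y := by
      intro v hv x hx y hy hvx hvy
      by_contra hxy
      have pv := hpure v hv
      obtain ⟨z, hzv, hzx, pz, ht, nv, nx, nz⟩ := tri3 hN hF pv (mem_tri.2 (Or.inr hvx)) hvx.1.ne'
      have hyz : y = z := by
        have : y ∈ tri G v := mem_tri.2 (Or.inr hvy)
        rw [ht] at this
        simp only [Finset.mem_insert, Finset.mem_singleton] at this
        rcases this with h | h | h
        · exact absurd h hvy.1.ne'
        · exact absurd h.symm hxy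
        · exact h
      subst hyz
      -- a deleted vertex in the triangle
      obtain ⟨w, hwD, hw⟩ : ∃ w ∈ D0 G U r p, w ∈ tri G v := by
        by_cases hvU : v ∈ U
        · have h1 := hp.1 v hvU
          have h2 := tri_eq hN hF pv h1
          exact ⟨_, Or.inr (Or.inr ⟨hU.2.1 v hvU h1, by rw [h2]⟩), h1⟩
        · have h1 := (hr v pv hvU).1
          have h2 := tri_eq hN hF pv h1
          refine ⟨_, Or.inr (Or.inl ⟨pure_of_mem_tri hN hF pv h1, fun h' => hvU ?_,
            by rw [h2]⟩), h1⟩
          apply hU.2.1 _ h'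
          rw [h2]
          exact self_mem_tri v
      rw [ht] at hw
      simp only [Finset.mem_insert, Finset.mem_singleton] at hw
      rcases hw with rfl | rfl | rfl
      · exact g0.1 _ hv hwD
      · exact g0.1 _ hx hwD
      · exact g0.1 _ hy hwD
    let f : V → V := fun v => if h : ∃ x ∈ S, Tr G v x then h.choose else v
    have hf1 : ∀ v x, v ∈ S → x ∈ S → Tr G v x → f v = x := by
      intro v x hv hx hvx
      have h : ∃ x ∈ S, Tr G v x := ⟨x, hx, hvx⟩
      have : f v = h.choose := dif_pos h
      rw [this]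
      exact huniq v hv _ h.choose_spec.1 x hx h.choose_spec.2 hvx
    have hf2 : ∀ v, (¬ ∃ x ∈ S, Tr G v x) → f v = v := fun v h => dif_neg h
    let q : V → V := fun v => if out G v ∈ S then out G v else v
    have hq1 : ∀ v, out G v ∈ S → q v = out G v := fun v h => if_pos h
    have hq2 : ∀ v, out G v ∉ S → q v = v := fun v h => if_neg h
    obtain ⟨c, hc⟩ := two_inv S.card S f q rfl
      (by
        intro v hv
        by_cases h : ∃ x ∈ S, Tr G v x
        · obtain ⟨x, hx, hvx⟩ := h
          rw [hf1 v x hv hx hvx, hf1 x v hx hv hvx.symm]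
          exact ⟨hx, rfl⟩
        · rw [hf2 v h, hf2 v h]
          exact ⟨hv, rfl⟩)
      (by
        intro v hv
        by_cases h : out G v ∈ S
        · have hoo := out_out hN hF (hpure v hv).1
          rw [hq1 v h, hq1 _ (by rw [hoo]; exact hv), hoo]
          exact ⟨h, rfl⟩
        · rw [hq2 v h, hq2 v h]
          exact ⟨hv, rfl⟩)
    refine ⟨c, fun u hu w hw huw => ?_⟩
    by_cases ht : Tr G u w
    · have h1 := hf1 u w hu hw ht
      have h2 := (hc u hu).1
      rw [h1] at h2
      exact (h2 huw.ne').symm
    · have h0 := out_uniq hN hF huw ht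
      have h1 : q u = w := by rw [hq1 u (h0 ▸ hw), h0]
      have h2 := (hc u hu).2
      rw [h1] at h2
      exact (h2 huw.ne').symm
  obtain ⟨c, hc⟩ := colour_of_good hgood
  refine ⟨A0 G U r, B, c, ?_, ?_, ?_, ?_⟩
  · rw [Set.disjoint_left]
    intro v hvA hvB
    exact hBA v hvB hvA
  · intro u hu v hv huv
    exact A0_pack hN hF hU hr hu hv huv
  · intro u hu v hv huv
    exact hBP u hu v hv huv
  · intro u v h1 h2 h3 h4 huv
    exact hc u v (by rintro (h | h); exacts [h1 h, h2 h]) (by rintro (h | h); exacts [h3 h, h4 h])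
      huv

end Pool.Agent.Q271.CF
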