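import Pool.Agent.Q271.CF.Basic

/-!
# Pure triangles of a claw-free cubic graph
-/

namespace Pool.Agent.Q271.CF

variable {V : Type*} {G : SimpleGraph V}

/-- not a middle vertex and not adjacent to a middle vertex -/
def Pure (G : SimpleGraph V) (v : V) : Prop := ¬ Mid G v ∧ ∀ u, G.Adj v u → ¬ Mid G u

/-- not a middle vertex but adjacent to one -/
def End (G : SimpleGraph V) (v : V) : Prop := ¬ Mid G v ∧ ∃ u, G.Adj v u ∧ Mid G u

theorem trichotomy (v : V) : Mid G v ∨ Pure G v ∨ End G v := by
  by_cases h : Mid G v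
  · exact Or.inl h
  · by_cases h2 : ∃ u, G.Adj v u ∧ Mid G u
    · exact Or.inr (Or.inr ⟨h, h2⟩)
    · push Not at h2
      exact Or.inr (Or.inl ⟨h, h2⟩)

theorem End.not_pure {v : V} (h : End G v) : ¬ Pure G v := by
  obtain ⟨-, u, h1, h2⟩ := h
  exact fun h' => h'.2 u h1 h2

theorem tr_pure (hN : Cub G) (hF : CFree G) {v u : V} (hv : Pure G v) (h : Tr G v u) :
    Pure G u := by
  obtain ⟨x, y, hxy, hxo, hyo, ha, h1, h2, h4⟩ := nm hN hF hv.1
  have hu : ¬ Mid G u := hv.2 u h.1
  obtain ⟨p, q, hpq, hpo, hqo, hpq', h1', h2', h4'⟩ := nm hN hF hu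
  refine ⟨hu, fun w hw => ?_⟩
  rcases (h4' w).1 hw with h5 | h5 | h5
  · -- w is a triangle mate of u
    subst h5
    by_cases hwv : w = v
    · exact hwv ▸ hv.1
    · obtain ⟨hadj, z, hz1, hz2⟩ := h
      -- z is a common neighbour of v and u; mates of u are v and z
      have hvq : v = q := by
        rcases (h4' v).1 hadj.symm with h6 | h6 | h6
        · exact absurd h6.symm hwv
        · exact h6
        · exfalso
          rw [h6] at hz1
          have h7 : G.Adj u z := hz2
          have : Tr G u (out G u) := ⟨(out_spec hu).1, z, h7, hz1⟩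
          exact (out_spec hu).2 this
      exact hv.2 w (by rw [hvq]; exact hpq'.symm)
  · subst h5
    by_cases hwv : w = v
    · exact hwv ▸ hv.1
    · obtain ⟨hadj, z, hz1, hz2⟩ := h
      have hvq : v = p := by
        rcases (h4' v).1 hadj.symm with h6 | h6 | h6
        · exact h6
        · exact absurd h6.symm hwv
        · exfalso
          rw [h6] at hz1
          have h7 : G.Adj u z := hz2
          have : Tr G u (out G u) := ⟨(out_spec hu).1, z, h7, hz1⟩
          exact (out_spec hu).2 this
      exact hv.2 w (by rw [hvq]; exact hpq')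
  · rw [h5]
    exact out_nonmid hu

variable [Fintype V] [DecidableEq V]

open Classical in
/-- the triangle of a vertex (for pure vertices) -/
noncomputable def tri (G : SimpleGraph V) (v : V) : Finset V :=
  Finset.univ.filter (fun u => u = v ∨ Tr G v u)

theorem mem_tri {v u : V} : u ∈ tri G v ↔ u = v ∨ Tr G v u := by
  simp [tri]

theorem self_mem_tri (v : V) : v ∈ tri G v := mem_tri.2 (Or.inl rfl)

/-- the triangle of a pure vertex explicitly -/
theorem pure_struct (hN : Cub G) (hF : CFree G) {v : V} (hv : Pure G v) :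
    ∃ x y, x ≠ v ∧ y ≠ v ∧ x ≠ y ∧ x ≠ out G v ∧ y ≠ out G v ∧ G.Adj x y ∧ Pure G x ∧ Pure G y ∧
      (∀ u, G.Adj v u ↔ u = x ∨ u = y ∨ u = out G v) ∧ tri G v = {v, x, y} ∧
      (∀ u, G.Adj x u ↔ u = v ∨ u = y ∨ u = out G x) ∧
      (∀ u, G.Adj y u ↔ u = v ∨ u = x ∨ u = out G y) := by
  obtain ⟨x, y, hxy, hxo, hyo, ha, h1, h2, h4⟩ := nm hN hF hv.1
  have hx : G.Adj v x := (h4 x).2 (Or.inl rfl)
  have hy : G.Adj v y := (h4 y).2 (Or.inr (Or.inl rfl))
  have tx : Tr G v x := ⟨hx, y, hy, ha⟩
  have ty : Tr G v y := ⟨hy, x, hx, ha.symm⟩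
  have px := tr_pure hN hF hv tx
  have py := tr_pure hN hF hv ty
  have hox := out_spec px.1
  have hoy := out_spec py.1
  refine ⟨x, y, hx.ne', hy.ne', hxy, hxo, hyo, ha, px, py, h4, ?_, ?_, ?_⟩
  · ext u
    rw [mem_tri]
    simp only [Finset.mem_insert, Finset.mem_singleton]
    constructor
    · rintro (h | h)
      · exact Or.inl h
      · rcases (h4 u).1 h.1 with h5 | h5 | h5
        · exact Or.inr (Or.inl h5)
        · exact Or.inr (Or.inr h5)
        · exact absurd (h5 ▸ h) (out_spec hv.1).2
    · rintro (h | h | h)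
      · exact Or.inl h
      · exact Or.inr (h ▸ tx)
      · exact Or.inr (h ▸ ty)
  · refine nb3 hN hy.ne (fun h => hox.2 ?_) (fun h => hox.2 ?_) hx.symm ha hox.1
    · rw [← h]; exact tx.symm
    · rw [← h]; exact ⟨ha, v, hx.symm, hy.symm⟩
  · refine nb3 hN hx.ne (fun h => hoy.2 ?_) (fun h => hoy.2 ?_) hy.symm ha.symm hoy.1
    · rw [← h]; exact ty.symm
    · rw [← h]; exact ⟨ha.symm, v, hy.symm, hx.symm⟩

theorem tri_eq (hN : Cub G) (hF : CFree G) {v u : V} (hv : Pure G v) (hu : u ∈ tri G v) :
    tri G u = tri G v := by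
  rw [mem_tri] at hu
  rcases hu with rfl | hu
  · rfl
  · have pu := tr_pure hN hF hv hu
    obtain ⟨x, y, hxv, hyv, hxy, -, -, ha, px, py, h4, ht, hx', hy'⟩ := pure_struct hN hF hv
    have hox := out_spec px.1
    have hoy := out_spec py.1
    rcases (h4 u).1 hu.1 with h | h | h
    · subst h
      rw [ht]
      ext w
      rw [mem_tri]
      simp only [Finset.mem_insert, Finset.mem_singleton]
      constructor
      · rintro (h | h)
        · exact Or.inr (Or.inl h)
        · rcases (hx' w).1 h.1 with h5 | h5 | h5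
          · exact Or.inl h5
          · exact Or.inr (Or.inr h5)
          · exact absurd (h5 ▸ h) hox.2
      · rintro (h | h | h)
        · exact Or.inr (h ▸ hu.symm)
        · exact Or.inl h
        · exact Or.inr ⟨h ▸ ha, v, hu.1.symm, by rw [h]; exact (hy' v).2 (Or.inl rfl)⟩
    · subst h
      rw [ht]
      ext w
      rw [mem_tri]
      simp only [Finset.mem_insert, Finset.mem_singleton]
      constructor
      · rintro (h | h)
        · exact Or.inr (Or.inr h)
        · rcases (hy' w).1 h.1 with h5 | h5 | h5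
          · exact Or.inl h5
          · exact Or.inr (Or.inl h5)
          · exact absurd (h5 ▸ h) hoy.2
      · rintro (h | h | h)
        · exact Or.inr (h ▸ hu.symm)
        · exact Or.inr ⟨h ▸ ha.symm, v, hu.1.symm, by rw [h]; exact (hx' v).2 (Or.inl rfl)⟩
        · exact Or.inl h
    · exact absurd (h ▸ hu) (out_spec hv.1).2

theorem pure_of_mem_tri (hN : Cub G) (hF : CFree G) {v u : V} (hv : Pure G v)
    (hu : u ∈ tri G v) : Pure G u := by
  rw [mem_tri] at hu
  rcases hu with rfl | hu
  · exact hv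
  · exact tr_pure hN hF hv hu

theorem card_tri (hN : Cub G) (hF : CFree G) {v : V} (hv : Pure G v) : (tri G v).card = 3 := by
  obtain ⟨x, y, hxv, hyv, hxy, -, -, -, -, -, -, ht, -, -⟩ := pure_struct hN hF hv
  rw [ht, Finset.card_insert_of_notMem (by simp [hxv.symm, hyv.symm]),
    Finset.card_pair hxy]

theorem mem_tri_comm (hN : Cub G) (hF : CFree G) {v u : V} (hv : Pure G v) (hu : u ∈ tri G v) :
    v ∈ tri G u := by
  rw [tri_eq hN hF hv hu]
  exact self_mem_tri v

theorem out_notMem_tri {v : V} (hv : ¬ Mid G v) : out G v ∉ tri G v := by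
  rw [mem_tri]
  rintro (h | h)
  · exact (out_spec hv).1.ne' h
  · exact (out_spec hv).2 h

/-- a neighbour of a pure vertex is in its triangle or is the outer neighbour -/
theorem adj_pure (hN : Cub G) (hF : CFree G) {v u : V} (hv : Pure G v) (h : G.Adj v u) :
    u ∈ tri G v ∨ u = out G v := by
  by_cases ht : Tr G v u
  · exact Or.inl (mem_tri.2 (Or.inr ht))
  · exact Or.inr (out_uniq hN hF h ht)

/-- conversely, distinct vertices of one triangle are adjacent -/
theorem adj_of_mem_tri {v u : V} (hu : u ∈ tri G v) (hne : u ≠ v) : G.Adj v u := by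
  rcases mem_tri.1 hu with h | h
  · exact absurd h hne
  · exact h.1

/-- A set of vertices that is a union of pure triangles, no two of them joined by an edge. -/
def Indep (G : SimpleGraph V) (U : Finset V) : Prop :=
  (∀ v ∈ U, Pure G v) ∧ (∀ v ∈ U, tri G v ⊆ U) ∧ (∀ v ∈ U, out G v ∉ U)

/-- A maximal such set exists. -/
theorem exists_U (hN : Cub G) (hF : CFree G) : ∃ U : Finset V, Indep G U ∧
    ∀ v, Pure G v → v ∉ U → ∃ x ∈ tri G v, out G x ∈ U := by
  classical
  obtain ⟨U, hU, hmax⟩ := Finset.exists_max_image (Finset.univ.filter (fun U => Indep G U))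
    Finset.card ⟨∅, Finset.mem_filter.2 ⟨Finset.mem_univ _, by simp, by simp, by simp⟩⟩
  rw [Finset.mem_filter] at hU
  refine ⟨U, hU.2, fun v hv hvU => ?_⟩
  by_contra hcon
  push Not at hcon
  obtain ⟨u1, u2, u3⟩ := hU.2
  have hI : Indep G (U ∪ tri G v) := by
    refine ⟨?_, ?_, ?_⟩
    · intro w hw
      rcases Finset.mem_union.1 hw with h | h
      · exact u1 w h
      · exact pure_of_mem_tri hN hF hv h
    · intro w hw
      rcases Finset.mem_union.1 hw with h | h
      · exact (u2 w h).trans Finset.subset_union_left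
      · rw [tri_eq hN hF hv h]
        exact Finset.subset_union_right
    · intro w hw hw'
      rcases Finset.mem_union.1 hw with h | h <;> rcases Finset.mem_union.1 hw' with h' | h'
      · exact u3 w h h'
      · apply hcon _ h'
        rw [out_out hN hF (u1 w h).1]
        exact h
      · exact hcon w h h'
      · have hp := pure_of_mem_tri hN hF hv h
        rw [← tri_eq hN hF hv h] at h'
        exact out_notMem_tri hp.1 h'
  have := hmax _ (Finset.mem_filter.2 ⟨Finset.mem_univ _, hI⟩)
  have h2 : U.card < (U ∪ tri G v).card := by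
    apply Finset.card_lt_card
    refine ⟨Finset.subset_union_left, fun h => hvU (h ?_)⟩
    exact Finset.mem_union_right _ (self_mem_tri v)
  omega

end Pool.Agent.Q271.CF
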