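import Pool.Agent.Q271.CF.Core

/-!
# Choice of the deleted vertices
-/

namespace Pool.Agent.Q271.CF

variable {V : Type*} {G : SimpleGraph V} [Fintype V] [DecidableEq V]

/-- A choice of one vertex in every triangle of `U`. -/
def Valid (G : SimpleGraph V) (U : Finset V) (p : Finset V → V) : Prop :=
  (∀ v ∈ U, p (tri G v) ∈ tri G v) ∧
  (∀ v ∈ U, (∃ x ∈ tri G v, End G (out G x)) → End G (out G (p (tri G v)))) ∧
  (∀ v ∈ U, ∀ w ∈ U, ¬ End G (out G (p (tri G v))) → ¬ End G (out G (p (tri G w))) →
    tri G (out G (p (tri G v))) = tri G (out G (p (tri G w))) → tri G v = tri G w)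

theorem pure_out {v : V} (hv : Pure G v) (h : ¬ End G (out G v)) : Pure G (out G v) := by
  rcases trichotomy (G := G) (out G v) with h1 | h1 | h1
  · exact absurd h1 (out_nonmid hv.1)
  · exact h1
  · exact absurd h1 h

theorem exists_valid [Nonempty V] (hN : Cub G) (hF : CFree G) {U : Finset V} (hU : Indep G U) :
    ∃ p, Valid G U p := by
  classical
  obtain ⟨u1, u2, u3⟩ := hU
  -- the triangles without strings
  let T : Finset (Finset V) := (U.image (tri G)).filter (fun t => ∀ x ∈ t, ¬ End G (out G x))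
  have hT : ∀ t ∈ T, ∃ v ∈ U, tri G v = t ∧ ∀ x ∈ t, ¬ End G (out G x) := by
    intro t ht
    obtain ⟨h1, h2⟩ := Finset.mem_filter.1 ht
    obtain ⟨v, hv, rfl⟩ := Finset.mem_image.1 h1
    exact ⟨v, hv, rfl, h2⟩
  have hall : ∀ s : Finset {t // t ∈ T}, s.card ≤
      (s.biUnion (fun t => t.1.image (fun x => tri G (out G x)))).card := by
    intro s
    set N := s.biUnion (fun t => t.1.image (fun x => tri G (out G x))) with hNdef
    have h1 : (s.biUnion (fun t => t.1)).card = 3 * s.card := by
      rw [Finset.card_biUnion]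
      · rw [Finset.sum_congr rfl (g := fun _ => 3), Finset.sum_const, smul_eq_mul, mul_comm]
        intro t _
        obtain ⟨v, hv, h, -⟩ := hT t.1 t.2
        rw [← h, card_tri hN hF (u1 v hv)]
      · intro t _ t' _ hne
        rw [Function.onFun, Finset.disjoint_left]
        intro x hx hx'
        obtain ⟨v, hv, h, -⟩ := hT t.1 t.2
        obtain ⟨v', hv', h', -⟩ := hT t'.1 t'.2
        apply hne
        apply Subtype.ext
        rw [← h, ← h']
        rw [← h] at hx
        rw [← h'] at hx'
        rw [← tri_eq hN hF (u1 v hv) hx, ← tri_eq hN hF (u1 v' hv') hx']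
    have h2 : ((s.biUnion (fun t => t.1)).image (out G)).card = (s.biUnion (fun t => t.1)).card := by
      apply Finset.card_image_of_injOn
      intro x hx y hy hxy
      simp only [Finset.coe_biUnion, Set.mem_iUnion, Finset.mem_coe] at hx hy
      obtain ⟨t, -, hx⟩ := hx
      obtain ⟨t', -, hy⟩ := hy
      obtain ⟨v, hv, h, -⟩ := hT t.1 t.2
      obtain ⟨v', hv', h', -⟩ := hT t'.1 t'.2
      have px := pure_of_mem_tri hN hF (u1 v hv) (h ▸ hx)
      have py := pure_of_mem_tri hN hF (u1 v' hv') (h' ▸ hy)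
      have hxy' : out G x = out G y := hxy
      rw [← out_out hN hF px.1, hxy', out_out hN hF py.1]
    have h3 : ((s.biUnion (fun t => t.1)).image (out G)) ⊆ N.biUnion (fun t => t) := by
      intro y hy
      obtain ⟨x, hx, rfl⟩ := Finset.mem_image.1 hy
      obtain ⟨t, ht, hxt⟩ := Finset.mem_biUnion.1 hx
      refine Finset.mem_biUnion.2 ⟨tri G (out G x), ?_, self_mem_tri _⟩
      exact Finset.mem_biUnion.2 ⟨t, ht, Finset.mem_image.2 ⟨x, hxt, rfl⟩⟩
    have h4 : (N.biUnion (fun t => t)).card ≤ N.card * 3 := by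
      apply Finset.card_biUnion_le_card_mul
      intro t ht
      obtain ⟨t', ht', h5⟩ := Finset.mem_biUnion.1 ht
      obtain ⟨x, hx, rfl⟩ := Finset.mem_image.1 h5
      obtain ⟨v, hv, h, h6⟩ := hT t'.1 t'.2
      have px := pure_of_mem_tri hN hF (u1 v hv) (h ▸ hx)
      have := pure_out px (h6 x hx)
      show (tri G (out G x)).card ≤ 3
      rw [card_tri hN hF this]
    have h5 := Finset.card_le_card h3
    omega
  obtain ⟨f, hfi, hf⟩ := (Finset.all_card_le_biUnion_card_iff_exists_injective _).1 hall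
  -- the choice function
  have hch : ∀ t : Finset V, ∃ x : V,
      ((∃ y ∈ t, End G (out G y)) → x ∈ t ∧ End G (out G x)) ∧
      (∀ h : t ∈ T, x ∈ t ∧ tri G (out G x) = f ⟨t, h⟩) := by
    intro t
    by_cases h1 : ∃ y ∈ t, End G (out G y)
    · obtain ⟨y, hy, hy2⟩ := h1
      refine ⟨y, fun _ => ⟨hy, hy2⟩, fun h => ?_⟩
      obtain ⟨v, hv, h', h6⟩ := hT t h
      exact absurd hy2 (h6 y hy)
    · by_cases h2 : t ∈ T
      · have := hf ⟨t, h2⟩
        obtain ⟨x, hx, hx2⟩ := Finset.mem_image.1 this
        exact ⟨x, fun h => absurd h h1, fun _ => ⟨hx, hx2⟩⟩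
      · exact ⟨Classical.arbitrary V, fun h => absurd h h1, fun h => absurd h h2⟩
  choose p hp1 hp2 using hch
  have hmemT : ∀ v ∈ U, (¬ ∃ x ∈ tri G v, End G (out G x)) → tri G v ∈ T := by
    intro v hv h
    push Not at h
    exact Finset.mem_filter.2 ⟨Finset.mem_image_of_mem _ hv, h⟩
  refine ⟨p, ?_, ?_, ?_⟩
  · intro v hv
    by_cases h : ∃ x ∈ tri G v, End G (out G x)
    · exact (hp1 _ h).1
    · exact (hp2 _ (hmemT v hv h)).1
  · intro v hv h
    exact (hp1 _ h).2
  · intro v hv w hw h1 h2 h3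
    have k1 : ¬ ∃ x ∈ tri G v, End G (out G x) := fun h => h1 (hp1 _ h).2
    have k2 : ¬ ∃ x ∈ tri G w, End G (out G x) := fun h => h2 (hp1 _ h).2
    have m1 := hmemT v hv k1
    have m2 := hmemT w hw k2
    rw [(hp2 _ m1).2, (hp2 _ m2).2] at h3
    exact congrArg Subtype.val (hfi h3)

/-- the deleted set -/
def D0 (G : SimpleGraph V) (U : Finset V) (r p : Finset V → V) : Set V :=
  {v | v ∈ Am G ∨ (Pure G v ∧ v ∉ U ∧ r (tri G v) = v) ∨ (v ∈ U ∧ p (tri G v) = v)}

theorem hit_D0 (hN : Cub G) (hF : CFree G) {U : Finset V} (hU : Indep G U) {r p : Finset V → V}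
    (hr : ∀ v, Pure G v → v ∉ U → r (tri G v) ∈ tri G v ∧ out G (r (tri G v)) ∈ U)
    (hp : Valid G U p) {v : V} (hv : v ∉ D0 G U r p) : ∃ u ∈ D0 G U r p, G.Adj v u := by
  rcases trichotomy (G := G) v with h | h | h
  · obtain ⟨b, a, d, hb, -, -, -, hn, -⟩ := mid_nonA hN h (fun h' => hv (Or.inl h'))
    exact ⟨b, Or.inl hb, (hn b).2 (Or.inl rfl)⟩
  · by_cases hvU : v ∈ U
    · have h1 := hp.1 v hvU
      have h2 := tri_eq hN hF h h1
      have h3 : p (tri G v) ∈ D0 G U r p := by
        refine Or.inr (Or.inr ⟨hU.2.1 v hvU h1, ?_⟩)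
        rw [h2]
      have hne : p (tri G v) ≠ v := fun h' => hv (h' ▸ h3)
      exact ⟨_, h3, adj_of_mem_tri h1 hne⟩
    · have h1 := (hr v h hvU).1
      have h2 := tri_eq hN hF h h1
      have h3 : r (tri G v) ∈ D0 G U r p := by
        refine Or.inr (Or.inl ⟨pure_of_mem_tri hN hF h h1, fun h' => hvU ?_, ?_⟩)
        · apply hU.2.1 _ h'
          rw [h2]
          exact self_mem_tri v
        · rw [h2]
      have hne : r (tri G v) ≠ v := fun h' => hv (h' ▸ h3)
      exact ⟨_, h3, adj_of_mem_tri h1 hne⟩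
  · obtain ⟨w, hw1, hw2⟩ := h.2
    obtain ⟨b, c, hb, -, -, -, -, -, hn⟩ := end_struct hN hF h.1 hw1 hw2
    exact ⟨b, Or.inl hb, (hn b).2 (Or.inl rfl)⟩

/-- An optimal choice: no vertex of `U` in the core has a string attached. -/
theorem exists_opt [Nonempty V] (hN : Cub G) (hF : CFree G) {U : Finset V} (hU : Indep G U)
    {r : Finset V → V}
    (hr : ∀ v, Pure G v → v ∉ U → r (tri G v) ∈ tri G v ∧ out G (r (tri G v)) ∈ U) :
    ∃ p, Valid G U p ∧ ∀ x ∈ U, x ∈ core G (D0 G U r p) → ¬ End G (out G x) := by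
  classical
  obtain ⟨p0, hp0⟩ := exists_valid hN hF hU
  obtain ⟨p, hp, hmin⟩ := WellFounded.has_min
    (InvImage.wf (fun p : Finset V → V => (core G (D0 G U r p)).card) Nat.lt_wfRel.wf)
    {p | Valid G U p} ⟨p0, hp0⟩
  refine ⟨p, hp, fun x hx hxK he => ?_⟩
  have hp' : Valid G U p := hp
  have px := hU.1 x hx
  set x' := p (tri G x) with hx'def
  have hx'tri : x' ∈ tri G x := hp'.1 x hx
  have he' : End G (out G x') := hp'.2.1 x hx ⟨x, self_mem_tri x, he⟩
  have hx'U : x' ∈ U := hU.2.1 x hx hx'tri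
  have hx'D : x' ∈ D0 G U r p := Or.inr (Or.inr ⟨hx'U, by rw [tri_eq hN hF px hx'tri]⟩)
  have hne : x' ≠ x := fun h => (good_core (D0 G U r p)).1 x hxK (h ▸ hx'D)
  let p' : Finset V → V := Function.update p (tri G x) x
  have hp'self : p' (tri G x) = x := Function.update_self ..
  have hp'ne : ∀ t, t ≠ tri G x → p' t = p t := fun t ht => Function.update_of_ne ht ..
  have hval : Valid G U p' := by
    refine ⟨?_, ?_, ?_⟩
    · intro v hv
      by_cases h : tri G v = tri G x
      · rw [h, hp'self]; exact self_mem_tri x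
      · rw [hp'ne _ h]; exact hp'.1 v hv
    · intro v hv hex
      by_cases h : tri G v = tri G x
      · rw [h, hp'self]; exact he
      · rw [hp'ne _ h]; exact hp'.2.1 v hv hex
    · intro v hv w hw h1 h2 h3
      by_cases h : tri G v = tri G x
      · rw [h, hp'self] at h1; exact absurd he h1
      · by_cases h' : tri G w = tri G x
        · rw [h', hp'self] at h2; exact absurd he h2
        · rw [hp'ne _ h] at h1 h3
          rw [hp'ne _ h'] at h2 h3
          exact hp'.2.2 v hv w hw h1 h2 h3
  have hlt := switch (D := D0 G U r p) (D' := D0 G U r p') hN hF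
    (fun v hv => hit_D0 hN hF hU hr hp' hv) (fun v hv => Or.inl hv) px hx'tri hne hx'D
    (Or.inr (Or.inr ⟨hx, hp'self⟩))
    (by
      rintro v (hv | hv | hv) hvx'
      · exact Or.inl hv
      · exact Or.inr (Or.inl hv)
      · refine Or.inr (Or.inr ⟨hv.1, ?_⟩)
        rw [hp'ne]
        · exact hv.2
        · intro h
          apply hvx'
          rw [hx'def, ← h, hv.2])
    hxK he'
  exact hmin p' hval hlt

/-- at distance at most three -/
def Near3 (G : SimpleGraph V) (u v : V) : Prop :=
  G.Adj u v ∨ (∃ x, G.Adj u x ∧ G.Adj x v) ∨ (∃ x y, G.Adj u x ∧ G.Adj x y ∧ G.Adj y v)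

theorem Near3.symm {u v : V} (h : Near3 G u v) : Near3 G v u := by
  rcases h with h | ⟨x, h1, h2⟩ | ⟨x, y, h1, h2, h3⟩
  · exact Or.inl h.symm
  · exact Or.inr (Or.inl ⟨x, h2.symm, h1.symm⟩)
  · exact Or.inr (Or.inr ⟨y, x, h3.symm, h2.symm, h1.symm⟩)

theorem mid_nbr (hN : Cub G) (hF : CFree G) {u w : V} (hu : Mid G u) (h : G.Adj u w) :
    ¬ Pure G w := fun hw => hw.2 u h.symm hu

/-- neighbours of an end vertex -/
theorem end_nbr (hN : Cub G) (hF : CFree G) {v w : V} (hv : End G v) (h : G.Adj v w) :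
    Mid G w ∨ w = out G v := by
  obtain ⟨u, hu1, hu2⟩ := hv.2
  obtain ⟨b, c, hb, hc, -, -, -, -, hn⟩ := end_struct hN hF hv.1 hu1 hu2
  rcases (hn w).1 h with h | h | h
  · exact Or.inl (h ▸ hb.1)
  · exact Or.inl (h ▸ hc)
  · exact Or.inr h

/-- The chosen vertices of `U` form a 3-packing. -/
theorem B0_pack (hN : Cub G) (hF : CFree G) {U : Finset V} (hU : Indep G U) {p : Finset V → V}
    (hp : Valid G U p) {y z : V} (hy : y ∈ U ∧ p (tri G y) = y) (hz : z ∈ U ∧ p (tri G z) = z)
    (hne : y ≠ z) : ¬ Near3 G y z := by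
  have py := hU.1 y hy.1
  have pz := hU.1 z hz.1
  have htri : tri G y ≠ tri G z := by
    intro h
    apply hne
    rw [← hy.2, h, hz.2]
  -- `z` is not in the triangle of a vertex outside `U`, nor adjacent to a vertex of `tri y`
  have hclosed : ∀ w, w ∉ U → Pure G w → z ∉ tri G w := by
    intro w hw hwp hzw
    exact hw (hU.2.1 z hz.1 (mem_tri_comm hN hF hwp hzw))
  have hztri : z ∉ tri G y := fun h => htri (tri_eq hN hF py h).symm
  have h1 : ∀ m ∈ tri G y, ¬ G.Adj m z := by
    intro m hm hmz
    have pm := pure_of_mem_tri hN hF py hm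
    rcases adj_pure hN hF pm hmz with h | h
    · rw [tri_eq hN hF py hm] at h
      exact hztri h
    · exact hU.2.2 m (hU.2.1 y hy.1 hm) (h ▸ hz.1)
  -- neighbours of the outer neighbour of a vertex of `tri y`
  have h2 : ∀ m ∈ tri G y, ¬ G.Adj (out G m) z := by
    intro m hm hmz
    have pm := pure_of_mem_tri hN hF py hm
    have hmU := hU.2.1 y hy.1 hm
    by_cases he : End G (out G m)
    · rcases end_nbr hN hF he hmz with h | h
      · exact pz.1 h
      · rw [out_out hN hF pm.1] at h
        exact hztri (h ▸ hm)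
    · have po := pure_out pm he
      rcases adj_pure hN hF po hmz with h | h
      · exact hclosed _ (hU.2.2 m hmU) po h
      · rw [out_out hN hF pm.1] at h
        exact hztri (h ▸ hm)
  rintro (h | ⟨x, hx1, hx2⟩ | ⟨x, w, hx1, hxw, hw⟩)
  · exact h1 y (self_mem_tri y) h
  · rcases adj_pure hN hF py hx1 with h | h
    · exact h1 x h hx2
    · exact h2 y (self_mem_tri y) (h ▸ hx2)
  · rcases adj_pure hN hF py hx1 with h | h
    · -- `x` in the triangle of `y`
      have px := pure_of_mem_tri hN hF py h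
      rcases adj_pure hN hF px hxw with h' | h'
      · rw [tri_eq hN hF py h] at h'
        exact h1 w h' hw
      · exact h2 x h (h' ▸ hw)
    · -- `x` is the outer neighbour of `y`
      subst h
      by_cases he : End G (out G y)
      · rcases end_nbr hN hF he hxw with h | h
        · exact mid_nbr hN hF h hw pz
        · rw [out_out hN hF py.1] at h
          exact h1 y (self_mem_tri y) (h ▸ hw)
      · have po := pure_out py he
        rcases adj_pure hN hF po hxw with h | h
        · have pw := pure_of_mem_tri hN hF po h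
          rcases adj_pure hN hF pw hw with h' | h'
          · rw [tri_eq hN hF po h] at h'
            exact hclosed _ (hU.2.2 y hy.1) po h'
          · -- both point to the same triangle
            have hzo : out G z = w := by rw [h', out_out hN hF pw.1]
            have hez : ¬ End G (out G z) := by
              rw [hzo]
              exact fun h'' => h''.not_pure pw
            apply htri
            apply hp.2.2 y hy.1 z hz.1
            · rw [hy.2]; exact he
            · rw [hz.2]; exact hez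
            · rw [hy.2, hz.2, hzo, tri_eq hN hF po h]
        · rw [out_out hN hF py.1] at h
          exact h1 y (self_mem_tri y) (h ▸ hw)

/-- The set of the vertices of the 2-packing. -/
def A0 (G : SimpleGraph V) (U : Finset V) (r : Finset V → V) : Set V :=
  {v | v ∈ Am G ∨ (Pure G v ∧ v ∉ U ∧ r (tri G v) = v)}

theorem adj_mid_mid (hN : Cub G) (hF : CFree G) {b b' : V} (hb : b ∈ Am G) (hb' : b' ∈ Am G)
    (h : G.Adj b b') : False := by
  obtain ⟨c, a, d, hca, hcd, had, hnb, hnc⟩ := mid_struct hN hb.1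
  have htw : Tw G b c := by
    intro w
    rw [hnb, hnc]
    tauto
  have hbc : G.Adj b c := (hnb c).2 (Or.inl rfl)
  have hne : b ≠ b' := h.ne
  -- if `b'` is a twin of `b` we are done
  have key : Tw G b b' → False := by
    intro ht
    apply hne
    rw [← hb.2, ← hb'.2, rep_eq ht]
  rcases (hnb b').1 h with h1 | h1 | h1
  · exact key (h1 ▸ htw)
  · -- `b' = a` is adjacent to `b` and `c`, and `Mid`
    subst h1
    obtain ⟨c2, a2, d2, k1, k2, k3, hn1, hn2⟩ := mid_struct hN hb'.1
    have q1 : G.Adj b' b := h.symm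
    have q2 : G.Adj b' c := ((hnc b').2 (Or.inr (Or.inl rfl))).symm
    -- the twin `c2` of `b'`
    have htw2 : Tw G b' c2 := by
      intro w
      rw [hn1, hn2]
      tauto
    have q3 : G.Adj b' c2 := (hn1 c2).2 (Or.inl rfl)
    -- `b` and `c` are in the closed neighbourhood of `c2`
    have r1 := (htw2 b).1 (Or.inr q1)
    have r2 := (htw2 c).1 (Or.inr q2)
    rcases r1 with r1 | r1
    · exact key (fun w => by rw [r1]; exact (htw2 w).symm)
    · rcases (hnb c2).1 r1.symm with s | s | s
      · exact key (fun w => (htw w).trans (by rw [← s]; exact (htw2 w).symm))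
      · exact q3.ne s.symm
      · -- `c2 = d`; then the four vertices form a `K₄`
        subst s
        have n1 : ∀ u, G.Adj b' u ↔ u = b ∨ u = c ∨ u = c2 :=
          nb3 hN hbc.ne (fun e => h.ne (by
            have := r1
            rw [← e] at this
            exact absurd this (G.irrefl))) hcd q1 q2 q3
        apply key
        intro w
        rw [hnb, n1]
        tauto
  · subst h1
    obtain ⟨c2, a2, d2, k1, k2, k3, hn1, hn2⟩ := mid_struct hN hb'.1
    have q1 : G.Adj b' b := h.symm
    have q2 : G.Adj b' c := ((hnc b').2 (Or.inr (Or.inr rfl))).symm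
    have htw2 : Tw G b' c2 := by
      intro w
      rw [hn1, hn2]
      tauto
    have q3 : G.Adj b' c2 := (hn1 c2).2 (Or.inl rfl)
    have r1 := (htw2 b).1 (Or.inr q1)
    rcases r1 with r1 | r1
    · exact key (fun w => by rw [r1]; exact (htw2 w).symm)
    · rcases (hnb c2).1 r1.symm with s | s | s
      · exact key (fun w => (htw w).trans (by rw [← s]; exact (htw2 w).symm))
      · subst s
        have n1 : ∀ u, G.Adj b' u ↔ u = b ∨ u = c ∨ u = c2 :=
          nb3 hN hbc.ne (fun e => h.ne (by
            have := r1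
            rw [← e] at this
            exact absurd this (G.irrefl))) hca q1 q2 q3
        apply key
        intro w
        rw [hnb, n1]
        tauto
      · exact q3.ne s.symm

end Pool.Agent.Q271.CF
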